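import Pool.Agent.Y458.NS.Wk

/-!
The first step of the weak local regularity theorem: smallness of the energy.
-/

open MeasureTheory Set Metric
open scoped ContDiff

namespace Pool.Agent.Y458.NS

open H459R3.NS W221.NS Pool.Agent.Y8 W605.MD

/-- the localised energy -/
noncomputable def EK (v : V → V) : ℝ := ∫ z, nsq v z * k2 z

lemma EK_nonneg (v : V → V) : 0 ≤ EK v :=
  integral_nonneg fun z => mul_nonneg (W605.MD.nsq_nonneg _ z) (k2_nonneg z)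

lemma EK_le {v : V → V} (hv : ContDiff ℝ ∞ v) : EK v ≤ A2 0 1 v := by
  have h := up_term (f := nsq v) (ψ := k2) (κ := 1) (W605.MD.nsq_cont hv)
    (W605.MD.nsq_nonneg v) k2_cont (fun z hz => k2_zero hz) k2_le_one
  rw [one_mul] at h
  exact h

lemma le_EK {v : V → V} (hv : ContDiff ℝ ∞ v) : A2 0 (3 / 4) v ≤ EK v := by
  have h := W612.MD.low_term (f := nsq v) (ψ := k2) (κ := 1) (a := 0) (ρ := 3 / 4)
    (W605.MD.nsq_cont hv) (W605.MD.nsq_nonneg v) k2_cont k2_nonneg (fun z hz => k2_zero hz)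
    (fun z hz => (k2_one hz).ge)
  rw [one_mul] at h
  exact h

lemma lapk {v : V → V} (hv : ContDiff ℝ ∞ v) {L : ℝ} (hL : ∀ z, |lap k2 z| ≤ L) :
    ∫ z, nsq v z * lap k2 z ≤ L * A2 0 2 v := by
  have hsub : closedBall (0 : V) 1 ⊆ ball (0 : V) 2 := closedBall_subset_ball (by norm_num)
  have hz0 : ∀ z ∉ ball (0 : V) 2, nsq v z * lap k2 z = 0 := by
    intro z hz
    have h1 : z ∉ closedBall (0 : V) 1 := fun h => hz (hsub h)
    rw [lap_k2_zero h1, mul_zero]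
  rw [← setIntegral_eq_integral_of_forall_compl_eq_zero hz0]
  unfold A2
  rw [← integral_const_mul]
  apply setIntegral_mono_on
    (intOn_ball ((W605.MD.nsq_cont hv).mul (lap_cont k2_smooth)) 2)
    (intOn_ball (continuous_const.mul (W605.MD.nsq_cont hv)) 2) measurableSet_ball
  intro z _
  show nsq v z * lap k2 z ≤ L * nsq v z
  rw [mul_comm L]
  exact mul_le_mul_of_nonneg_left ((le_abs_self _).trans (hL z)) (W605.MD.nsq_nonneg v z)

lemma DD_bound (h2 : S_CUT) (h3 : S_POINC) : ∃ Cp C₁ : ℝ, 0 < Cp ∧ 0 < C₁ ∧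
    (∀ v : V → V, ContDiff ℝ ∞ v → (∀ i, ∫ z, th z * v z i = 0) → A2 0 2 v ≤ Cp * B2 0 2 v) ∧
    ∀ (v : ℝ → V → V) (q : ℝ → V → ℝ) (t : ℝ) (P : V → ℝ) (G : ℝ), Slice (v t) (q t) P G →
      DD 1 v q (fun _ => k2) t ≤ C₁ * G * (1 + √(EK (v t))) := by
  obtain ⟨Cc, hCc, hcut⟩ := h2
  obtain ⟨Cp, hCp, hpo⟩ := h3
  obtain ⟨L, hL0, hL⟩ := lap_k2_bound
  refine ⟨Cp, L * Cp + Cc, hCp, by positivity, hpo, ?_⟩
  intro v q t P G hP
  have hG := G_nonneg hP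
  have t1 : 0 ≤ ∫ z, gsq (v t) z * k2 z :=
    integral_nonneg fun z => mul_nonneg (W605.MD.gsq_nonneg _ z) (k2_nonneg z)
  have t2 := lapk hP.sv hL
  have t2' : L * A2 0 2 (v t) ≤ L * Cp * G := by
    rw [mul_assoc]
    apply mul_le_mul_of_nonneg_left _ hL0
    exact (hpo (v t) hP.sv hP.mean).trans (mul_le_mul_of_nonneg_left hP.grad hCp.le)
  have t3 : ∫ z, (nsq (v t) z + 2 * q t z) * adv (v t) k2 z ≤ Cc * G * (1 + √(EK (v t))) :=
    (le_abs_self _).trans (hcut (v t) (q t) P G hP)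
  have e5 : 0 ≤ √(EK (v t)) := Real.sqrt_nonneg _
  have t4 : L * Cp * G ≤ L * Cp * G * (1 + √(EK (v t))) := by
    apply le_mul_of_one_le_right (by positivity)
    linarith
  have t5 : (L * Cp + Cc) * G * (1 + √(EK (v t))) =
      L * Cp * G * (1 + √(EK (v t))) + Cc * G * (1 + √(EK (v t))) := by ring
  have e1 : DD 1 v q (fun _ => k2) t = -(2 * 1) * (∫ z, gsq (v t) z * k2 z)
      + (∫ z, nsq (v t) z * lap k2 z)
      + ∫ z, (nsq (v t) z + 2 * q t z) * adv (v t) k2 z := by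
    unfold DD
    simp only [deriv_const, zero_add, one_mul]
  rw [t5, e1]
  linarith

theorem t_WBASE (h2 : S_CUT) (h3 : S_POINC) : S_WBASE := by
  obtain ⟨Cp, C₁, hCp, hC₁, hpo, hD⟩ := DD_bound h2 h3
  refine ⟨6 * Cp + 2 * C₁ + C₁ ^ 2, 1, by positivity, one_pos, ?_⟩
  intro ε hε hε1 H v q Γ hyp t₁ ht₁ ht₁'
  obtain ⟨hloc, hsl, hGi, hGe⟩ := hyp
  have hG0 : ∀ t ∈ H, 0 ≤ Γ t := fun t ht => by
    obtain ⟨P, hP⟩ := hsl t ht
    exact G_nonneg hP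
  have hv : ∀ t ∈ H, ContDiff ℝ ∞ (v t) := fun t ht => by
    obtain ⟨P, hP⟩ := hsl t ht
    exact hP.sv
  have hG0' : ∀ᵐ t ∂(volume.restrict (Ioo (-1 : ℝ) 0)), 0 ≤ Γ t := by
    filter_upwards [ae_mem hloc.fullH subset_rfl measurableSet_Ioo] with t ht using hG0 t ht
  -- the initial time
  obtain ⟨t', ht', ht'1, ht'2, ht'3⟩ : ∃ t' ∈ H, -1 < t' ∧ t' < -9 / 16 ∧ Γ t' ≤ 3 * ε := by
    by_contra hc
    push Not at hc
    have hsub : Ioo (-1 : ℝ) (-9 / 16) ⊆ Ioo (-1) 0 := Ioo_subset_Ioo_right (by norm_num)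
    have h1 : ∫ _ in Ioo (-1 : ℝ) (-9 / 16), 3 * ε ≤ ∫ t in Ioo (-1 : ℝ) (-9 / 16), Γ t := by
      apply integral_mono_ae
      · exact integrableOn_const (by simp)
      · exact hGi.mono_set hsub
      · filter_upwards [ae_mem hloc.fullH hsub measurableSet_Ioo,
          ae_restrict_mem measurableSet_Ioo] with t ht ht2
        exact (hc t ht ht2.1 ht2.2).le
    have h3 : ∫ t in Ioo (-1 : ℝ) (-9 / 16), Γ t ≤ ∫ t in Ioo (-1 : ℝ) 0, Γ t :=
      setIntegral_mono_set hGi hG0' hsub.eventuallyLE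
    rw [setIntegral_const] at h1
    simp [Measure.real] at h1
    have h4 : (ENNReal.ofReal ((-9 : ℝ) / 16 + 1)).toReal = 7 / 16 := by
      rw [ENNReal.toReal_ofReal (by norm_num)]
      norm_num
    rw [h4] at h1
    linarith
  have hE' : EK (v t') ≤ 3 * Cp * ε := by
    have h1 := EK_le (hv t' ht')
    have h2 : A2 0 1 (v t') ≤ A2 0 2 (v t') :=
      A2_mono (hv t' ht') (ball_subset_ball (by norm_num))
    obtain ⟨P, hP⟩ := hsl t' ht'
    have h3 := hpo (v t') hP.sv hP.mean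
    have h4 : Cp * B2 0 2 (v t') ≤ Cp * (3 * ε) :=
      mul_le_mul_of_nonneg_left (hP.grad.trans ht'3) hCp.le
    linarith
  -- the supremum of the energy
  obtain ⟨B, hB⟩ := hloc.bdd
  obtain ⟨X, hX⟩ : ∃ X : Set ℝ, X = (fun t => EK (v t)) '' (H ∩ Ici t') := ⟨_, rfl⟩
  have hXb : BddAbove X := by
    refine ⟨B, ?_⟩
    rw [hX]
    rintro _ ⟨t, ht, rfl⟩
    exact (EK_le (hv t ht.1)).trans (hB t ht.1)
  have hXn : X.Nonempty := by
    rw [hX]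
    exact ⟨_, t', ⟨ht', mem_Ici.2 le_rfl⟩, rfl⟩
  obtain ⟨S, hS⟩ : ∃ S, S = sSup X := ⟨_, rfl⟩
  have hle : ∀ t ∈ H, t' ≤ t → EK (v t) ≤ S := by
    intro t ht h
    rw [hS]
    apply le_csSup hXb
    rw [hX]
    exact ⟨t, ⟨ht, h⟩, rfl⟩
  have hS0 : 0 ≤ S := (EK_nonneg _).trans (hle t' ht' le_rfl)
  have hkey : ∀ t ∈ H, t' ≤ t → EK (v t) ≤ 3 * Cp * ε + C₁ * (1 + √S) * ε := by
    intro t ht h
    have hsub : Ioo t' t ⊆ Ioo (-1 : ℝ) 0 :=
      Ioo_subset_Ioo ht'1.le (hloc.subH ht).2.le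
    obtain ⟨hi, hen⟩ := hloc.en (-2) 1 (fun _ => k2)
      ((k2_smooth.comp contDiff_snd).contDiffOn) (fun _ _ z hz => k2_zero hz) t' ht' t ht
      (by linarith) h (by linarith [(hloc.subH ht).2]) (fun _ _ z => k2_nonneg z)
    have hgi : IntegrableOn (fun τ => C₁ * (1 + √S) * Γ τ) (Ioo t' t) :=
      (hGi.mono_set hsub).const_mul _
    have h1 : ∫ τ in Ioo t' t, DD 1 v q (fun _ => k2) τ
        ≤ ∫ τ in Ioo t' t, C₁ * (1 + √S) * Γ τ := by
      apply integral_mono_ae hi hgi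
      filter_upwards [ae_mem hloc.fullH hsub measurableSet_Ioo,
          ae_restrict_mem measurableSet_Ioo] with τ hτ hτ2
      obtain ⟨P, hP⟩ := hsl τ hτ
      refine (hD v q τ P (Γ τ) hP).trans ?_
      have e1 : √(EK (v τ)) ≤ √S := Real.sqrt_le_sqrt (hle τ hτ hτ2.1.le)
      have e2 := hG0 τ hτ
      calc C₁ * Γ τ * (1 + √(EK (v τ))) ≤ C₁ * Γ τ * (1 + √S) :=
            mul_le_mul_of_nonneg_left (by linarith) (by positivity)
        _ = _ := by ring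
    rw [integral_const_mul] at h1
    have h3 : ∫ t in Ioo t' t, Γ t ≤ ∫ t in Ioo (-1 : ℝ) 0, Γ t :=
      setIntegral_mono_set hGi hG0' hsub.eventuallyLE
    have h4 : C₁ * (1 + √S) * (∫ t in Ioo t' t, Γ t) ≤ C₁ * (1 + √S) * ε :=
      mul_le_mul_of_nonneg_left (h3.trans hGe) (by positivity)
    have h5 : (∫ z, nsq (v t) z * k2 z) = EK (v t) := rfl
    have h6 : (∫ z, nsq (v t') z * k2 z) = EK (v t') := rfl
    rw [h5, h6] at hen
    linarith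
  have hS1 : S ≤ 3 * Cp * ε + C₁ * (1 + √S) * ε := by
    rw [hS]
    apply csSup_le hXn
    rw [hX]
    rintro _ ⟨t, ht, rfl⟩
    rw [← hX, ← hS]
    exact hkey t ht.1 ht.2
  have hS2 : S ≤ (6 * Cp + 2 * C₁ + C₁ ^ 2) * ε := by
    obtain ⟨r, hr, hrS⟩ : ∃ r : ℝ, 0 ≤ r ∧ S = r ^ 2 :=
      ⟨√S, Real.sqrt_nonneg _, (Real.sq_sqrt hS0).symm⟩
    rw [hrS, Real.sqrt_sq hr] at hS1
    rw [hrS]
    have e3 : 0 ≤ (C₁ * ε - r) ^ 2 := sq_nonneg _
    have e4 : C₁ ^ 2 * ε ^ 2 ≤ C₁ ^ 2 * ε := by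
      apply mul_le_mul_of_nonneg_left _ (by positivity)
      rw [pow_two]
      exact mul_le_of_le_one_left hε.le hε1
    have e5 : (C₁ * ε - r) ^ 2 = C₁ ^ 2 * ε ^ 2 - 2 * (C₁ * ε * r) + r ^ 2 := by ring
    have e6 : C₁ * (1 + r) * ε = C₁ * ε + C₁ * ε * r := by ring
    have e7 : (6 * Cp + 2 * C₁ + C₁ ^ 2) * ε = 2 * (3 * Cp * ε) + 2 * (C₁ * ε) + C₁ ^ 2 * ε := by
      ring
    rw [e6] at hS1
    rw [e5] at e3
    rw [e7]
    linarith
  exact (le_EK (hv t₁ ht₁)).trans ((hle t₁ ht₁ (by linarith)).trans hS2)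

end Pool.Agent.Y458.NS
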