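import Mathlib

/-!
Paths: the first time at which a path leaves a ball.
-/

open MeasureTheory Set Metric

namespace Pool.Agent.Y458.NS

lemma amgm {x y : ℝ} (hx : 0 ≤ x) (hy : 0 ≤ y) : √(x * y) ≤ (x + y) / 2 := by
  apply Real.sqrt_le_iff.2
  refine ⟨by linarith, ?_⟩
  nlinarith [sq_nonneg (x - y)]

lemma first_time {V : Type*} [NormedAddCommGroup V] [NormedSpace ℝ V] [CompleteSpace V]
    {X Y : ℝ → V} {N : ℝ → ℝ} {G : Set ℝ} {t₀ t r a b L : ℝ}
    (hr : 0 < r) (ha : 0 ≤ a) (hb : 0 ≤ b) (hX : ∀ τ ∈ uIcc t₀ t, HasDerivAt X (Y τ) τ)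
    (hYi : IntervalIntegrable Y volume t₀ t) (hL : |t - t₀| ≤ L) (hfar : r < ‖X t - X t₀‖)
    (hae : ∀ᵐ τ ∂(volume.restrict (uIoc t₀ t)), τ ∈ G) (hNi : IntegrableOn N (uIoc t₀ t))
    (hN : ∀ τ, 0 ≤ N τ)
    (hYb : ∀ τ ∈ G, τ ∈ uIoc t₀ t → ‖X τ - X t₀‖ ≤ r → ‖Y τ‖ ≤ a + b * N τ) :
    r ≤ a * L + b * ∫ τ in uIoc t₀ t, N τ := by
  have hne : t - t₀ ≠ 0 := by
    intro h
    have : t = t₀ := by linarith
    rw [this, sub_self, norm_zero] at hfar
    linarith
  obtain ⟨g, hg⟩ : ∃ g : ℝ → ℝ, g = fun s => t₀ + s * (t - t₀) := ⟨_, rfl⟩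
  have hgI : ∀ s ∈ Icc (0 : ℝ) 1, g s ∈ uIcc t₀ t := by
    intro s hs
    rw [hg, mem_uIcc]
    rcases le_total t₀ t with h | h
    · left
      constructor
      · nlinarith [hs.1, hs.2]
      · nlinarith [hs.1, hs.2]
    · right
      constructor
      · nlinarith [hs.1, hs.2]
      · nlinarith [hs.1, hs.2]
  have hXc : ContinuousOn X (uIcc t₀ t) := fun τ hτ => (hX τ hτ).continuousAt.continuousWithinAt
  have hf : ContinuousOn (fun s => ‖X (g s) - X t₀‖) (Icc 0 1) := by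
    have hgc : ContinuousOn g (Icc 0 1) := by
      rw [hg]
      fun_prop
    exact ((hXc.comp hgc hgI).sub continuousOn_const).norm
  have hK : IsCompact (Icc (0 : ℝ) 1 ∩ (fun s => ‖X (g s) - X t₀‖) ⁻¹' Ici r) :=
    isCompact_Icc.of_isClosed_subset
      (hf.preimage_isClosed_of_isClosed isClosed_Icc isClosed_Ici) inter_subset_left
  have hg1 : g 1 = t := by rw [hg]; ring
  obtain ⟨s₁, hs₁, hmin⟩ := hK.exists_isLeast ⟨1, ⟨by norm_num, le_rfl⟩, by
    show r ≤ ‖X (g 1) - X t₀‖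
    rw [hg1]
    exact hfar.le⟩
  have hbefore : ∀ s ∈ Ico 0 s₁, ‖X (g s) - X t₀‖ ≤ r := by
    intro s hs
    by_contra hcon
    rw [not_le] at hcon
    have h1 := hmin ⟨⟨hs.1, hs.2.le.trans hs₁.1.2⟩, hcon.le⟩
    linarith [hs.2]
  have hs10 : 0 ≤ s₁ := hs₁.1.1
  have hs11 : s₁ ≤ 1 := hs₁.1.2
  obtain ⟨t₁, ht₁⟩ : ∃ t₁, t₁ = g s₁ := ⟨_, rfl⟩
  have ht₁' : t₁ - t₀ = s₁ * (t - t₀) := by rw [ht₁, hg]; ring
  have hsub : uIoc t₀ t₁ ⊆ uIoc t₀ t := by
    intro τ hτ
    rw [mem_uIoc] at *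
    rcases lt_or_gt_of_ne hne with h | h
    · right
      have h1 : t ≤ t₁ := by nlinarith
      have h2 : t₁ ≤ t₀ := by nlinarith
      rcases hτ with h3 | h3
      · linarith [h3.1, h3.2]
      · exact ⟨h1.trans_lt h3.1, h3.2⟩
    · left
      have h1 : t₁ ≤ t := by nlinarith
      have h2 : t₀ ≤ t₁ := by nlinarith
      rcases hτ with h3 | h3
      · exact ⟨h3.1, h3.2.trans h1⟩
      · linarith [h3.1, h3.2]
  have hsubc : uIcc t₀ t₁ ⊆ uIcc t₀ t :=
    uIcc_subset_uIcc left_mem_uIcc (by rw [ht₁]; exact hgI s₁ hs₁.1)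
  have hin : ∀ τ ∈ uIoc t₀ t₁, τ ≠ t₁ → ‖X τ - X t₀‖ ≤ r := by
    intro τ hτ hne1
    obtain ⟨s, hs⟩ : ∃ s, s = (τ - t₀) / (t - t₀) := ⟨_, rfl⟩
    have hsτ : s * (t - t₀) = τ - t₀ := by
      rw [hs]
      field_simp
    have hgs : g s = τ := by
      rw [hg]
      show t₀ + s * (t - t₀) = τ
      rw [hsτ]
      ring
    have hsI : s ∈ Ico 0 s₁ := by
      have hsne : s ≠ s₁ := by
        intro h
        apply hne1
        rw [ht₁, ← h, hgs]
      have hle : 0 ≤ s ∧ s ≤ s₁ := by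
        rw [mem_uIoc] at hτ
        rcases lt_or_gt_of_ne hne with h | h
        · have h2 : t₁ ≤ t₀ := by nlinarith
          rcases hτ with h3 | h3
          · linarith [h3.1, h3.2]
          · constructor
            · by_contra hc
              rw [not_le] at hc
              nlinarith [h3.2]
            · by_contra hc
              rw [not_le] at hc
              nlinarith [h3.1]
        · have h2 : t₀ ≤ t₁ := by nlinarith
          rcases hτ with h3 | h3
          · constructor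
            · by_contra hc
              rw [not_le] at hc
              nlinarith [h3.1]
            · by_contra hc
              rw [not_le] at hc
              nlinarith [h3.2]
          · linarith [h3.1, h3.2]
      exact ⟨hle.1, lt_of_le_of_ne hle.2 hsne⟩
    have h4 := hbefore s hsI
    rw [hgs] at h4
    exact h4
  have hfar1 : r ≤ ‖X t₁ - X t₀‖ := by
    rw [ht₁]
    exact hs₁.2
  have hYi1 : IntervalIntegrable Y volume t₀ t₁ := hYi.mono_set hsubc
  have h1 : ∫ τ in t₀..t₁, Y τ = X t₁ - X t₀ :=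
    intervalIntegral.integral_eq_sub_of_hasDerivAt (fun τ hτ => hX τ (hsubc hτ)) hYi1
  have h2 : ‖∫ τ in t₀..t₁, Y τ‖ ≤ ∫ τ in uIoc t₀ t₁, ‖Y τ‖ :=
    intervalIntegral.norm_integral_le_integral_norm_uIoc
  have hci : IntegrableOn (fun _ : ℝ => a) (uIoc t₀ t₁) :=
    integrableOn_const (by rw [Real.volume_uIoc]; exact ENNReal.ofReal_ne_top)
  have hNi1 : IntegrableOn (fun τ => b * N τ) (uIoc t₀ t₁) := (hNi.mono_set hsub).const_mul b
  have h3 : ∫ τ in uIoc t₀ t₁, ‖Y τ‖ ≤ ∫ τ in uIoc t₀ t₁, (a + b * N τ) := by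
    apply integral_mono_ae
    · exact (intervalIntegrable_iff.1 hYi1).norm
    · exact hci.add hNi1
    · have h4 : ∀ᵐ τ ∂(volume.restrict (uIoc t₀ t₁)), τ ∈ G :=
        ae_mono (Measure.restrict_mono hsub le_rfl) hae
      have h5 : ∀ᵐ τ ∂(volume.restrict (uIoc t₀ t₁)), τ ≠ t₁ := by
        apply ae_restrict_of_ae
        exact compl_mem_ae_iff.2 (measure_singleton t₁)
      filter_upwards [h4, h5, ae_restrict_mem measurableSet_uIoc] with τ h6 h7 h8
      exact hYb τ h6 (hsub h8) (hin τ h8 h7)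
  rw [integral_add hci hNi1, setIntegral_const, integral_const_mul] at h3
  have h6 : volume.real (uIoc t₀ t₁) = |t₁ - t₀| := by
    unfold Measure.real
    rw [Real.volume_uIoc, ENNReal.toReal_ofReal (abs_nonneg _)]
  rw [h6, smul_eq_mul] at h3
  have h7 : |t₁ - t₀| ≤ L := by
    rw [ht₁', abs_mul, abs_of_nonneg hs10]
    exact (mul_le_of_le_one_left (abs_nonneg _) hs11).trans hL
  have h8 : ∫ τ in uIoc t₀ t₁, N τ ≤ ∫ τ in uIoc t₀ t, N τ :=
    setIntegral_mono_set hNi (Filter.Eventually.of_forall hN) hsub.eventuallyLE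
  rw [h1] at h2
  have h9 : |t₁ - t₀| * a ≤ a * L := by
    rw [mul_comm a]
    exact mul_le_mul_of_nonneg_right h7 ha
  have h10 := mul_le_mul_of_nonneg_left h8 hb
  linarith

end Pool.Agent.Y458.NS
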