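import Pool.Agent.Y458.NS.AL1
import Pool.Agent.Y458.NS.AL2

/-!
The alternative for points which are carried away by the flow.
-/

open MeasureTheory Set Metric
open scoped ContDiff

namespace Pool.Agent.Y458.NS

open H459R3.NS W221.NS Pool.Agent.Y8

section

variable {T E D : ℝ} {G : Set ℝ} {u : ℝ → V → V} {p : ℝ → V → ℝ}

lemma ex_reg (h : Turb 1 T E D G u p) {a b : ℝ} (hab : a < b) (ha : 0 ≤ a) (hb : b ≤ T) :
    ∃ t ∈ G, a < t ∧ t < b := by
  by_contra hc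
  push Not at hc
  have h1 : Ioo a b ⊆ Ioo (0 : ℝ) T \ G := by
    intro t ht
    refine ⟨⟨by linarith [ht.1], by linarith [ht.2]⟩, fun hG => ?_⟩
    exact absurd (hc t hG ht.1) (not_le.2 ht.2)
  have h2 : volume (Ioo a b) ≤ 0 := h.fullG ▸ measure_mono h1
  rw [Real.volume_Ioo] at h2
  have h3 := ENNReal.ofReal_pos.2 (sub_pos.2 hab)
  exact absurd h2 (not_le.2 h3)

lemma sub_ae (h : Turb 1 T E D G u p) {J : Set ℝ} (hJ : J ⊆ Ioo 0 T) : J ≤ᵐ[volume] G := by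
  have h1 : ∀ᵐ t : ℝ, t ∉ Ioo 0 T \ G := measure_eq_zero_iff_ae_notMem.1 h.fullG
  filter_upwards [h1] with t ht htJ
  by_contra hc
  exact ht ⟨hJ htJ, hc⟩

lemma NN2_int (h : Turb 1 T E D G u p) (n : ℕ) (x : V) :
    IntegrableOn (fun t => NN2 n (u t) x) G := by
  unfold NN2
  exact integrable_finsetSum _ fun k _ =>
    (B2_mov_int h (X := fun _ => x) continuousOn_const _).const_mul _

lemma NN1_int (h : Turb 1 T E D G u p) (n m : ℕ) (x : V) :
    IntegrableOn (fun t => NN1 n m (u t) x) G := by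
  unfold NN1
  exact integrable_finsetSum _ fun k _ =>
    (B2_mov_int h (X := fun _ => x) continuousOn_const _).const_mul _

lemma A2_int (h : Turb 1 T E D G u p) (x : V) (ρ : ℝ) :
    IntegrableOn (fun t => A2 x ρ (u t)) G := by
  obtain ⟨C, hC, hb⟩ := ball_le ρ
  have hc : ContinuousOn (fun t => A2 x ρ (u t)) G :=
    pint_cont h.openG (nsq_joint h.smooth_u).continuousOn x ρ
  have hi : IntegrableOn (fun _ : ℝ => C * E ^ 2) G := integrableOn_const h.volG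
  refine Integrable.mono' hi (hc.aestronglyMeasurable h.openG.measurableSet) ?_
  filter_upwards [ae_restrict_mem h.openG.measurableSet] with t ht
  have hA : 0 ≤ A2 x ρ (u t) := integral_nonneg fun z => nsq_nn (u t) z
  rw [Real.norm_eq_abs, abs_of_nonneg hA]
  have hu := h.spv ht
  have h1 := hb _ (nsq_sm hu.1).continuous (nsq_per hu.2) (nsq_nn (u t)) x
  rw [← energy_eq hu.1] at h1
  exact h1.trans (mul_le_mul_of_nonneg_left (h.energy_le t ht) hC.le)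

lemma NF_int (h : Turb 1 T E D G u p) (n m : ℕ) (x : V) :
    IntegrableOn (fun t => NF n m (u t) x) G := by
  unfold NF
  exact integrable_finsetSum _ fun k _ => (A2_int h x _).const_mul _

lemma mo_int (h : Turb 1 T E D G u p) {r : ℝ} (hr : 0 < r) (hr1 : r ≤ 1) (x : V) :
    IntegrableOn (fun t => mo r (u t) x) G := by
  obtain ⟨K, hK, hb⟩ := mo_bd
  have hc : ContinuousOn (fun t => mo r (u t) x) G := by
    have h1 : ContinuousOn (fun t : ℝ => ((t, x) : ℝ × V)) G := by fun_prop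
    exact ContinuousOn.comp (g := fun z : ℝ × V => mo r (u z.1) z.2) (f := fun t => (t, x))
      (mol_joint h.openG h.smooth_u r).continuousOn h1 fun t ht => ⟨ht, mem_univ _⟩
  have hi : IntegrableOn (fun _ : ℝ => K * |E| / √(r ^ 3)) G := integrableOn_const h.volG
  refine Integrable.mono' hi (hc.aestronglyMeasurable h.openG.measurableSet) ?_
  filter_upwards [ae_restrict_mem h.openG.measurableSet] with t ht
  exact hb E (u t) (h.spv ht) (h.energy_le t ht) r x hr hr1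

lemma NN1_nn (n m : ℕ) (w : V → V) (x : V) : 0 ≤ NN1 n m w x := by
  unfold NN1
  exact Finset.sum_nonneg fun k _ => mul_nonneg (by positivity) (B2_nn' _ _ _)

lemma NF_nn (n m : ℕ) (w : V → V) (x : V) : 0 ≤ NF n m w x := by
  unfold NF
  exact Finset.sum_nonneg fun k _ => mul_nonneg (by positivity)
    (integral_nonneg fun z => nsq_nn w z)

/-- The second term of the weighted dissipation. -/
lemma B2_le_NN2 {n : ℕ} (hn : 2 ≤ n) (w : V → V) (x : V) :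
    B2 x (4 * rr n) w ≤ 16 * rr n ^ 2 * NN2 n w x := by
  have hr := rrp n
  have h1 : rr n ^ 2 * ((2 ^ 1 * rr n) ^ 4)⁻¹ * B2 x (2 ^ (1 + 1) * rr n) w ≤ NN2 n w x := by
    unfold NN2
    exact Finset.single_le_sum (f := fun k => rr n ^ 2 * ((2 ^ k * rr n) ^ 4)⁻¹ *
      B2 x (2 ^ (k + 1) * rr n) w) (fun k _ => mul_nonneg (by positivity) (B2_nn' _ _ _))
      (Finset.mem_range.2 (by omega : 1 < n))
  have h2 := mul_le_mul_of_nonneg_left h1 (by positivity : 0 ≤ 16 * rr n ^ 2)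
  have h3 : 16 * rr n ^ 2 * (rr n ^ 2 * ((2 ^ 1 * rr n) ^ 4)⁻¹ * B2 x (2 ^ (1 + 1) * rr n) w) =
      B2 x (2 ^ (1 + 1) * rr n) w := by
    field_simp
    ring
  rw [h3] at h2
  norm_num at h2
  exact h2

lemma FPath_Y_int (h : Turb 1 T E D G u p) {r B C : ℝ} {X Y : ℝ → V}
    (hX : FPath T r B C G u p X Y) : IntegrableOn Y (Ioo 0 T) := by
  have hc : ContinuousOn (fun t => mo r (u t) (X t)) G := by
    have h1 : ContinuousOn (fun t : ℝ => ((t, X t) : ℝ × V)) G :=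
      continuousOn_id.prodMk hX.sm.continuousOn
    exact ContinuousOn.comp (g := fun z : ℝ × V => mo r (u z.1) z.2) (f := fun t => (t, X t))
      (mol_joint h.openG h.smooth_u r).continuousOn h1 fun t ht => ⟨ht, mem_univ _⟩
  have hc2 : ContinuousOn Y G := hc.congr fun t ht => hX.ev t ht
  have hi : IntegrableOn (fun _ : ℝ => B) G := integrableOn_const h.volG
  have h2 : IntegrableOn Y G := by
    refine Integrable.mono' hi (hc2.aestronglyMeasurable h.openG.measurableSet) ?_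
    filter_upwards [ae_restrict_mem h.openG.measurableSet] with t ht
    exact hX.bd t (h.subG ht)
  exact h2.mono_set_ae (sub_ae h subset_rfl)

end

lemma rr_small {A δ : ℝ} (hδ : 0 < δ) (hA : 0 ≤ A) : ∃ n₁ : ℕ, ∀ n, n₁ ≤ n → A * rr n ≤ δ := by
  obtain ⟨n₁, hn₁⟩ := exists_pow_lt_of_lt_one (show 0 < δ / (A + 1) by positivity)
    (by norm_num : (1 / 2 : ℝ) < 1)
  refine ⟨n₁, fun n hn => ?_⟩
  have h1 : rr n ≤ δ / (A + 1) := by
    refine le_trans ?_ hn₁.le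
    unfold rr
    exact pow_le_pow_of_le_one (by norm_num) (by norm_num) hn
  rw [le_div_iff₀ (by positivity)] at h1
  have := rrp n
  nlinarith

lemma rr_add (n j : ℕ) : rr (n + j) ^ 2 * 4 ^ j = rr n ^ 2 := by
  unfold rr
  rw [pow_add, mul_pow, ← pow_mul (1 / 2 : ℝ) j 2, mul_comm j 2, pow_mul (1 / 2 : ℝ) 2 j,
    mul_assoc, ← mul_pow]
  norm_num

/-- the velocity of the path near the point -/
lemma speed {CM c₀ CD q κ : ℝ} (hc₀ : 0 < c₀) (hCM : 0 < CM) (hCD : 0 < CD) (hq : 0 < q)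
    (hκ : c₀ ≤ κ) {r σ U B' N Bd : ℝ} (hr : 0 < r) (hσ : 0 < σ) (hN : 0 ≤ N)
    {M c y : V} (hM : ‖M‖ ≤ c₀ / 4 * U) (hMc : ‖M - κ • c‖ ≤ CM * (√(N * r) + B'))
    (hy : ‖y - c‖ ≤ CD * √(σ⁻¹ * Bd)) (hBd : Bd ≤ 16 * r ^ 2 * N) :
    ‖y‖ ≤ (1 / c₀ * (c₀ / 4 * U + CM * (q / (2 * σ)) + CM * B') + CD * (2 * r * q / σ ^ 2))
      + (1 / c₀ * (CM * (σ * r / (2 * q))) + CD * (2 * r * σ / q)) * N := by
  have e1 : √(N * r) ≤ (q / σ + σ * r * N / q) / 2 := by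
    have : N * r = q / σ * (σ * r * N / q) := by
      field_simp
    rw [this]
    exact amgm (by positivity) (by positivity)
  have e2 : √(σ⁻¹ * Bd) ≤ (4 * r * q / σ ^ 2 + 4 * r * σ * N / q) / 2 := by
    have h1 : σ⁻¹ * Bd ≤ 4 * r * q / σ ^ 2 * (4 * r * σ * N / q) := by
      have h2 : 4 * r * q / σ ^ 2 * (4 * r * σ * N / q) = σ⁻¹ * (16 * r ^ 2 * N) := by
        field_simp
        ring
      rw [h2]
      exact mul_le_mul_of_nonneg_left hBd (by positivity)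
    exact (Real.sqrt_le_sqrt h1).trans (amgm (by positivity) (by positivity))
  have e3 : ‖c‖ ≤ 1 / c₀ * (c₀ / 4 * U + CM * (√(N * r) + B')) := by
    have h1 : c₀ * ‖c‖ ≤ κ * ‖c‖ := mul_le_mul_of_nonneg_right hκ (norm_nonneg _)
    have h2 : κ * ‖c‖ = ‖κ • c‖ := by
      rw [norm_smul, Real.norm_eq_abs, abs_of_pos (hc₀.trans_le hκ)]
    have h3 : ‖κ • c‖ ≤ ‖M‖ + ‖M - κ • c‖ := by
      have h4 : κ • c = M - (M - κ • c) := by abel
      calc ‖κ • c‖ = ‖M - (M - κ • c)‖ := by rw [← h4]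
        _ ≤ _ := norm_sub_le _ _
    rw [one_div, ← div_eq_inv_mul, le_div_iff₀ hc₀]
    linarith
  have e4 : ‖y‖ ≤ ‖c‖ + ‖y - c‖ := by
    have h4 : y = c + (y - c) := by abel
    calc ‖y‖ = ‖c + (y - c)‖ := by rw [← h4]
      _ ≤ _ := norm_add_le _ _
  have e5 : CM * (√(N * r) + B') ≤ CM * ((q / σ + σ * r * N / q) / 2 + B') :=
    mul_le_mul_of_nonneg_left (by linarith) hCM.le
  have e6 : 1 / c₀ * (c₀ / 4 * U + CM * (√(N * r) + B')) ≤
      1 / c₀ * (c₀ / 4 * U + CM * ((q / σ + σ * r * N / q) / 2 + B')) :=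
    mul_le_mul_of_nonneg_left (by linarith) (by positivity)
  have e7 : CD * √(σ⁻¹ * Bd) ≤ CD * ((4 * r * q / σ ^ 2 + 4 * r * σ * N / q) / 2) :=
    mul_le_mul_of_nonneg_left e2 hCD.le
  have e8 : (1 / c₀ * (c₀ / 4 * U + CM * (q / (2 * σ)) + CM * B') + CD * (2 * r * q / σ ^ 2))
      + (1 / c₀ * (CM * (σ * r / (2 * q))) + CD * (2 * r * σ / q)) * N =
      1 / c₀ * (c₀ / 4 * U + CM * ((q / σ + σ * r * N / q) / 2 + B'))
        + CD * ((4 * r * q / σ ^ 2 + 4 * r * σ * N / q) / 2) := by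
    field_simp
    ring
  rw [e8]
  linarith

/-- the final arithmetic -/
lemma arith {CM c₀ CD q : ℝ} (hc₀ : 0 < c₀) (hCM : 0 < CM) (hCD : 0 < CD) (hq : 0 < q)
    (hq1 : q ≤ 1) (hqs : q * (2 * CM / c₀ + 4 * CD) ≤ 1 / 4) {r σ U B' Q : ℝ} (hr : 0 < r)
    (hσ : 0 < σ) (hσr : σ ≤ r) (hU : U * σ ^ 2 = r) (hB0 : 0 ≤ B') (hB : B' * r ≤ q ^ 2)
    (hQ : Q ≤ q ^ 2 / r)
    (hfin : r ≤ (1 / c₀ * (c₀ / 4 * U + CM * (q / (2 * σ)) + CM * B')
      + CD * (2 * r * q / σ ^ 2)) * σ ^ 2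
      + (1 / c₀ * (CM * (σ * r / (2 * q))) + CD * (2 * r * σ / q)) * Q) : False := by
  have h1 : (1 / c₀ * (CM * (σ * r / (2 * q))) + CD * (2 * r * σ / q)) * Q ≤
      (1 / c₀ * (CM * (σ * r / (2 * q))) + CD * (2 * r * σ / q)) * (q ^ 2 / r) :=
    mul_le_mul_of_nonneg_left hQ (by positivity)
  have h2 : (1 / c₀ * (CM * (σ * r / (2 * q))) + CD * (2 * r * σ / q)) * (q ^ 2 / r) =
      CM / c₀ * (σ * q / 2) + 2 * CD * (σ * q) := by
    field_simp
  have h3 : (1 / c₀ * (c₀ / 4 * U + CM * (q / (2 * σ)) + CM * B')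
      + CD * (2 * r * q / σ ^ 2)) * σ ^ 2 =
      U * σ ^ 2 / 4 + CM / c₀ * (q * σ / 2) + CM / c₀ * (B' * σ ^ 2) + 2 * CD * (r * q) := by
    field_simp
  rw [h3, hU] at hfin
  rw [h2] at h1
  have h4 : B' * σ ^ 2 ≤ q * σ := by
    have h5 : B' * σ ^ 2 ≤ (B' * r) * σ := by
      rw [pow_two, mul_assoc]
      exact mul_le_mul_of_nonneg_left (mul_le_mul_of_nonneg_right hσr hσ.le) hB0
    have h6 : (B' * r) * σ ≤ q ^ 2 * σ := mul_le_mul_of_nonneg_right hB hσ.le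
    have h7 : q ^ 2 * σ ≤ q * σ := by
      apply mul_le_mul_of_nonneg_right _ hσ.le
      rw [pow_two]
      exact mul_le_of_le_one_left hq.le hq1
    linarith
  have hk : 0 ≤ CM / c₀ := by positivity
  have h8 : CM / c₀ * (B' * σ ^ 2) ≤ CM / c₀ * (q * σ) := mul_le_mul_of_nonneg_left h4 hk
  have h9 : q * σ ≤ q * r := mul_le_mul_of_nonneg_left hσr hq.le
  have h10 : CM / c₀ * (q * σ) ≤ CM / c₀ * (q * r) := mul_le_mul_of_nonneg_left h9 hk
  have h11 : CD * (q * σ) ≤ CD * (q * r) := mul_le_mul_of_nonneg_left h9 hCD.le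
  have h12 : q * (2 * CM / c₀ + 4 * CD) * r ≤ 1 / 4 * r := mul_le_mul_of_nonneg_right hqs hr.le
  have h13 : q * (2 * CM / c₀ + 4 * CD) * r = 2 * (CM / c₀ * (q * r)) + 4 * (CD * (q * r)) := by
    ring
  have h14 : CM / c₀ * (σ * q / 2) = (CM / c₀ * (q * σ)) / 2 := by ring
  have h15 : CM / c₀ * (q * σ / 2) = (CM / c₀ * (q * σ)) / 2 := by ring
  rw [h14] at h1
  rw [h15] at hfin
  linarith

theorem t_ALT (hT : S_TCUT) (hK : S_KER2) (hD : S_DYMO) (hH : S_HBD) (hM : S_MC)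
    (hP : S_PERS) : S_ALT := by
  obtain ⟨Ck, hCk, hker⟩ := hK
  obtain ⟨CD, hCD, hdy⟩ := hD
  obtain ⟨CH, hCH, hhb⟩ := hH
  obtain ⟨CM, c₀, hc₀, hc₀C, hmc⟩ := hM
  have hCM : 0 < CM := hc₀.trans_le hc₀C
  obtain ⟨C₀, hC₀⟩ : ∃ C₀, C₀ = 3 * CH + CM := ⟨_, rfl⟩
  obtain ⟨δP, K, c₂, hδP, hK1, hc₂, hpers⟩ := hP C₀ (c₀ / 4) (by positivity)
    (by rw [hC₀]; linarith)
  obtain ⟨κ₀, hκ₀⟩ : ∃ κ₀ : ℕ, K < 2 ^ κ₀ := pow_unbounded_of_one_lt K one_lt_two
  obtain ⟨q, hq⟩ : ∃ q, q = 1 / (4 * (2 * CM / c₀ + 4 * CD + 1)) := ⟨_, rfl⟩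
  have hq0 : 0 < q := by rw [hq]; positivity
  have hk0 : 0 < 2 * CM / c₀ + 4 * CD := by positivity
  have hq1 : q ≤ 1 := by
    rw [hq, div_le_one (by positivity)]
    linarith
  have hqs : q * (2 * CM / c₀ + 4 * CD) ≤ 1 / 4 := by
    rw [hq, one_div_mul_eq_div, div_le_div_iff₀ (by positivity) (by norm_num)]
    linarith
  have hδ0 : 0 < min δP (q ^ 2) := by positivity
  refine ⟨min δP (q ^ 2), c₂, κ₀, hδ0, hc₂, fun E => ?_⟩
  obtain ⟨n₁, hn₁⟩ := rr_small hδ0 (by positivity : (0 : ℝ) ≤ 1 + E ^ 2)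
  refine ⟨max 2 n₁, ?_⟩
  intro T D G u p h n j hn t₀ x₀ ht1 ht2 X Y B C hX hX0 hfar
  obtain ⟨t, htt, hfar⟩ := hfar
  have hn2 : 2 ≤ n := (le_max_left _ _).trans hn
  have hBr := hn₁ n ((le_max_right _ _).trans hn)
  obtain ⟨δ, hδ⟩ : ∃ δ, δ = min δP (q ^ 2) := ⟨_, rfl⟩
  rw [← hδ] at hBr hδ0
  rw [← hδ]
  have hδ1 : δ ≤ δP := by rw [hδ]; exact min_le_left _ _
  have hδ2 : δ ≤ q ^ 2 := by rw [hδ]; exact min_le_right _ _
  by_contra hcon
  simp only [not_or, not_le] at hcon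
  obtain ⟨a1, a2, a3, a4⟩ := hcon
  unfold II at a1 a2 a3 a4
  obtain ⟨I, hI⟩ : ∃ I : Set ℝ, I = Ioo (t₀ - rr n ^ 2) (t₀ + rr n ^ 2) := ⟨_, rfl⟩
  rw [← hI] at a1 a2 a3 a4
  have hr := rrp n
  have hr1 : rr n ≤ 1 := by
    unfold rr
    exact pow_le_one₀ (by norm_num) (by norm_num)
  have hσ := rrp (n + j)
  have hσr : rr (n + j) ≤ rr n := by
    unfold rr
    exact pow_le_pow_of_le_one (by norm_num) (by norm_num) (by omega)
  have hσ2 : rr (n + j) ^ 2 ≤ rr n ^ 2 := pow_le_pow_left₀ hσ.le hσr 2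
  obtain ⟨U, hU⟩ : ∃ U, U = 4 ^ j / rr n := ⟨_, rfl⟩
  rw [← hU] at a2 a3 a4
  have hU0 : 0 < U := by rw [hU]; positivity
  have hUr : U * rr n = 4 ^ j := by rw [hU]; field_simp
  have hUσ : U * rr (n + j) ^ 2 = rr n := by
    rw [hU, div_mul_eq_mul_div, mul_comm, rr_add]
    field_simp
  have hIT : I ⊆ Ioo 0 T := by
    rw [hI]
    intro τ hτ
    exact ⟨ht1.trans hτ.1, hτ.2.trans ht2⟩
  have hIae := sub_ae h hIT
  have hnull : volume (I \ G) = 0 := by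
    refine measure_mono_null ?_ h.fullG
    exact fun τ hτ => ⟨hIT hτ.1, hτ.2⟩
  obtain ⟨hgs, hes, hen, hall⟩ := hker (rr n) hr hr1
  have hg0 : ∀ z, 1 / 2 ≤ ‖z‖ → gg (rr n) z = 0 := fun z hz => ((hall z).1 hz).1
  obtain ⟨κ, hκ1, hκ2, hcmp⟩ := hmc n hn2
  obtain ⟨B', hB'⟩ : ∃ B', B' = 1 + E ^ 2 := ⟨_, rfl⟩
  rw [← hB'] at hBr
  have hB'0 : 0 ≤ B' := by rw [hB']; positivity
  obtain ⟨Mf, hMf⟩ : ∃ Mf : ℝ → V, Mf = fun t l => MN (rr n) (u t) x₀ l := ⟨_, rfl⟩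
  obtain ⟨cf, hcf⟩ : ∃ cf : ℝ → V, cf = fun t => mo (rr n) (u t) x₀ := ⟨_, rfl⟩
  obtain ⟨hf, hhf⟩ : ∃ hf : ℝ → ℝ, hf = fun t => ∑ l, |HH (rr n) (u t) x₀ l| := ⟨_, rfl⟩
  have hN2i : IntegrableOn (fun t => NN2 n (u t) x₀) I := (NN2_int h n x₀).mono_set_ae hIae
  -- the comparison of the means
  have F1 : ∀ τ ∈ G, ‖Mf τ - κ • cf τ‖ ≤ CM * (√(NN2 n (u τ) x₀ * rr n) + B') := by
    intro τ hτ
    rw [pi_norm_le_iff_of_nonneg (by positivity)]
    intro l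
    have h1 := hcmp (u τ) (h.spv hτ) (h.divfree τ hτ) x₀ l
    rw [hMf, hcf]
    refine h1.trans (mul_le_mul_of_nonneg_left ?_ hCM.le)
    have := h.energy_le τ hτ
    rw [hB']
    linarith
  have F2 : ∀ τ ∈ G, hf τ ≤ C₀ * (NN1 n (2 * j + κ₀) (u τ) x₀ + NN2 n (u τ) x₀
      + ‖cf τ‖ * √(NN2 n (u τ) x₀ / rr n) + √(NN2 n (u τ) x₀) / √(rr n ^ 3)
      + NF n (2 * j + κ₀) (u τ) x₀ + ‖cf τ‖ ^ 2 / (2 ^ (2 * j + κ₀) * rr n) + B') := by
    intro τ hτ
    obtain ⟨Q, hQ⟩ : ∃ Q, Q = NN1 n (2 * j + κ₀) (u τ) x₀ + NN2 n (u τ) x₀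
      + ‖cf τ‖ * √(NN2 n (u τ) x₀ / rr n) + √(NN2 n (u τ) x₀) / √(rr n ^ 3)
      + NF n (2 * j + κ₀) (u τ) x₀ + ‖cf τ‖ ^ 2 / (2 ^ (2 * j + κ₀) * rr n) := ⟨_, rfl⟩
    rw [← hQ]
    have hQ0 : 0 ≤ Q := by
      rw [hQ]
      have := NN1_nn n (2 * j + κ₀) (u τ) x₀
      have := NN2_nn n (u τ) x₀
      have := NF_nn n (2 * j + κ₀) (u τ) x₀
      positivity
    have h1 : ∀ l, |HH (rr n) (u τ) x₀ l| ≤ CH * (Q + B') := by
      intro l
      have h2 := hhb (u τ) (h.spv hτ) (h.divfree τ hτ) n (2 * j + κ₀) hn2 x₀ l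
      refine h2.trans (mul_le_mul_of_nonneg_left ?_ hCH.le)
      have := h.energy_le τ hτ
      rw [hQ, hB', hcf]
      linarith
    rw [hhf]
    have h3 : ∑ l, |HH (rr n) (u τ) x₀ l| ≤ ∑ _l : Fin 3, CH * (Q + B') :=
      Finset.sum_le_sum fun l _ => h1 l
    simp at h3
    have h4 : 0 ≤ CM * (Q + B') := by positivity
    rw [hC₀]
    refine h3.trans ?_
    linarith
  have F3 : ∀ s ∈ G, ∀ t ∈ G, s ≤ t → IntegrableOn hf (Ioo s t) ∧
      ‖Mf t - Mf s‖ ≤ ∫ τ in Ioo s t, hf τ := by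
    intro s hs t ht hst
    have h1 := fun l => MN_mod hT h hgs hg0 x₀ l hs ht hst
    have h2 : IntegrableOn hf (Ioo s t) := by
      rw [hhf]
      exact integrable_finsetSum _ fun l _ => (h1 l).1.abs
    refine ⟨h2, ?_⟩
    have h0 : ∀ τ, 0 ≤ hf τ := fun τ => by
      rw [hhf]
      exact Finset.sum_nonneg fun l _ => abs_nonneg _
    rw [pi_norm_le_iff_of_nonneg (integral_nonneg h0)]
    intro l
    have h3 : (Mf t - Mf s) l = ∫ τ in Ioo s t, HH (rr n) (u τ) x₀ l := by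
      rw [← (h1 l).2, hMf]
      rfl
    rw [h3]
    refine norm_integral_le_of_norm_le h2 (Filter.Eventually.of_forall fun τ => ?_)
    rw [hhf]
    exact Finset.single_le_sum (f := fun l => |HH (rr n) (u τ) x₀ l|)
      (fun l _ => abs_nonneg _) (Finset.mem_univ l)
  -- the fast time
  have hfast : ∃ τ ∈ I ∩ G, c₀ / 4 * U ≤ ‖Mf τ‖ := by
    by_contra hno
    push Not at hno
    have habs := abs_lt.1 htt
    have hsubc : uIcc t₀ t ⊆ I := by
      rw [hI]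
      intro τ hτ
      rw [mem_uIcc] at hτ
      rcases hτ with h1 | h1
      · constructor
        · have : 0 < rr n ^ 2 := by positivity
          linarith [h1.1]
        · linarith [h1.2]
      · constructor
        · linarith [h1.1]
        · have : 0 < rr n ^ 2 := by positivity
          linarith [h1.2]
    have hsubo : uIoc t₀ t ⊆ I := uIoc_subset_uIcc.trans hsubc
    have hae : ∀ᵐ τ ∂(volume.restrict (uIoc t₀ t)), τ ∈ G := by
      rw [ae_restrict_iff' measurableSet_uIoc]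
      exact sub_ae h (hsubo.trans hIT)
    have hft := first_time (X := X) (Y := Y) (N := fun τ => NN2 n (u τ) x₀) (G := G)
      (t₀ := t₀) (t := t) (r := rr n) (L := rr (n + j) ^ 2)
      (a := 1 / c₀ * (c₀ / 4 * U + CM * (q / (2 * rr (n + j))) + CM * B')
        + CD * (2 * rr n * q / rr (n + j) ^ 2))
      (b := 1 / c₀ * (CM * (rr (n + j) * rr n / (2 * q))) + CD * (2 * rr n * rr (n + j) / q))
      hr (by positivity) (by positivity) (fun τ hτ => hX.hd τ (hIT (hsubc hτ)))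
      (intervalIntegrable_iff.2 ((FPath_Y_int h hX).mono_set (hsubo.trans hIT))) htt.le
      (by rw [hX0]; exact hfar) hae (hN2i.mono_set hsubo) (fun τ => NN2_nn n (u τ) x₀) (by
        intro τ hτ hτI hle
        rw [hX0] at hle
        have h1 := hno τ ⟨hsubo hτI, hτ⟩
        have h2 := F1 τ hτ
        have h3 := hdy (u τ) (h.spv hτ).1 x₀ (X τ) (rr n) (rr (n + j)) hσ hσr hle
        rw [← hX.ev τ hτ] at h3
        have h4 := B2_le_NN2 hn2 (u τ) x₀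
        have h5 : cf τ = mo (rr n) (u τ) x₀ := by rw [hcf]
        rw [← h5] at h3
        exact speed hc₀ hCM hCD hq0 hκ1 hr hσ (NN2_nn n (u τ) x₀) h1.le h2 h3 h4)
    have hQ : ∫ τ in uIoc t₀ t, NN2 n (u τ) x₀ ≤ q ^ 2 / rr n := by
      have h1 : ∫ τ in uIoc t₀ t, NN2 n (u τ) x₀ ≤ ∫ τ in I, NN2 n (u τ) x₀ :=
        setIntegral_mono_set hN2i (Filter.Eventually.of_forall fun τ => NN2_nn n (u τ) x₀)
          hsubo.eventuallyLE
      refine h1.trans (a1.le.trans ?_)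
      exact div_le_div_of_nonneg_right hδ2 hr.le
    exact arith hc₀ hCM hCD hq0 hq1 hqs hr hσ hσr hUσ hB'0 (hBr.trans hδ2) hQ hft
  -- persistence
  obtain ⟨s', hs'G, hs'0, hs'1⟩ := ex_reg h ht1 le_rfl (by linarith [pow_pos hr 2])
  obtain ⟨t', ht'G, ht'0, ht'1⟩ := ex_reg h ht2 (by linarith [pow_pos hr 2]) le_rfl
  have hhfi : IntegrableOn hf I := by
    have h1 := (F3 s' hs'G t' ht'G (by linarith [pow_pos hr 2])).1
    rw [hI]
    exact h1.mono_set (Ioo_subset_Ioo hs'1.le ht'0.le)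
  have hfin := hpers (rr n) t₀ U B' (2 ^ (2 * j + κ₀) * rr n) κ G Mf cf hf
    (fun t => NN1 n (2 * j + κ₀) (u t) x₀) (fun t => NN2 n (u t) x₀)
    (fun t => NF n (2 * j + κ₀) (u t) x₀) hr hr1
    (by rw [hUr]; exact one_le_pow₀ (by norm_num)) hB'0 (hBr.trans hδ1)
    (by
      have h1 : K * U * rr n ^ 2 = K * 4 ^ j * rr n := by rw [← hUr]; ring
      have h2 : (2 : ℝ) ^ (2 * j + κ₀) = 2 ^ κ₀ * 4 ^ j := by
        rw [pow_add, pow_mul]
        norm_num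
        ring
      rw [h1, h2]
      exact mul_le_mul_of_nonneg_right (mul_le_mul_of_nonneg_right hκ₀.le (by positivity)) hr.le)
    (by linarith) (by rw [hC₀]; linarith) h.openG (by rw [← hI]; exact hnull)
    (fun t => NN1_nn _ _ _ _) (fun t => NN2_nn _ _ _) (fun t => NF_nn _ _ _ _)
    (by rw [← hI]; exact (NN1_int h n _ x₀).mono_set_ae hIae)
    (by rw [← hI]; exact hN2i)
    (by rw [← hI]; exact (NF_int h n _ x₀).mono_set_ae hIae)
    (by rw [← hI]; exact hhfi)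
    (by rw [← hI, hcf]; exact (mo_int h hr hr1 x₀).mono_set_ae hIae)
    (by rw [← hI]; exact a1.le.trans (div_le_div_of_nonneg_right hδ1 hr.le))
    (by rw [← hI]; exact a2.le.trans (mul_le_mul_of_nonneg_right hδ1 hU0.le))
    (by rw [← hI]; exact a3.le.trans (mul_le_mul_of_nonneg_right hδ1 hU0.le))
    (fun s hs t ht hst => (F3 s hs.2 t ht.2 hst).2)
    (fun τ hτ => F2 τ hτ.2)
    (fun τ hτ => (F1 τ hτ.2).trans (mul_le_mul_of_nonneg_right (by rw [hC₀]; linarith)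
      (by positivity)))
    (by rw [← hI]; exact hfast)
  rw [← hI, hcf] at hfin
  linarith

end Pool.Agent.Y458.NS
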