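import Pool.Agent.Y458.NS.MC
import Pool.Agent.Y458.NS.CR
import Pool.Agent.W22.ME.TD

/-!
The evolution of the local mean velocity between two regular times.
-/

open MeasureTheory Set Metric
open scoped ContDiff

namespace Pool.Agent.Y458.NS

open H459R3.NS W221.NS Pool.Agent.Y8

section

variable {r : ℝ}

lemma phi_sm (hg : ContDiff ℝ ∞ (gg r)) (x : V) (l i : Fin 3) : ContDiff ℝ ∞ (phi r x l i) := by
  have hs := sh_sm hg x
  have h1 : ContDiff ℝ ∞ (pd i (pd l (fun z => gg r (z - x)))) :=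
    Pool.Agent.W583.MD.sm_pd (Pool.Agent.W583.MD.sm_pd hs l) i
  by_cases h : i = l
  · have e : phi r x l i = fun y => pd i (pd l (fun z => gg r (z - x))) y
        - lap (fun z => gg r (z - x)) y := by
      funext y
      unfold phi
      rw [if_pos h]
    rw [e]
    exact h1.sub (Pool.Agent.W22.ME.TD.lap_smooth hs)
  · have e : phi r x l i = pd i (pd l (fun z => gg r (z - x))) := by
      funext y
      unfold phi
      rw [if_neg h, sub_zero]
    rw [e]
    exact h1

lemma phi_z (hg : ContDiff ℝ ∞ (gg r)) (hg0 : ∀ z, 1 / 2 ≤ ‖z‖ → gg r z = 0) (x : V)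
    (l i : Fin 3) : ∀ z ∉ ball x (1 / 2), phi r x l i z = 0 := by
  intro z hz
  have hs := sh_sm hg x
  have h0 := sh_z hg0 x
  have hR : (0 : ℝ) < 1 / 2 := by norm_num
  unfold phi
  rw [pd_zero' (Pool.Agent.W583.MD.sm_pd hs l) hR (fun y hy => pd_zero' hs hR h0 hy l) hz i,
    lap_zero' hs hR h0 hz]
  simp

lemma phi_div (hg : ContDiff ℝ ∞ (gg r)) (x : V) (l : Fin 3) (y : V) :
    ∑ i, pd i (phi r x l i) y = 0 := by
  obtain ⟨g, hgd⟩ : ∃ g : V → ℝ, g = fun z => gg r (z - x) := ⟨_, rfl⟩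
  have hs : ContDiff ℝ ∞ g := by rw [hgd]; exact sh_sm hg x
  have e : ∀ i, pd i (phi r x l i) y =
      pd i (pd i (pd l g)) y - if i = l then pd l (lap g) y else 0 := by
    intro i
    by_cases h : i = l
    · have e1 : phi r x l i = fun y => pd i (pd l g) y - lap g y := by
        funext y
        unfold phi
        rw [if_pos h, hgd]
      rw [e1, if_pos h, Pool.Agent.W22.ME.TD.pd_sub (Pool.Agent.W583.MD.sm_pd (Pool.Agent.W583.MD.sm_pd hs l) i)
        (Pool.Agent.W22.ME.TD.lap_smooth hs), h]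
    · have e1 : phi r x l i = pd i (pd l g) := by
        funext y
        unfold phi
        rw [if_neg h, sub_zero, hgd]
      rw [e1, if_neg h, sub_zero]
  simp only [e]
  rw [Finset.sum_sub_distrib]
  simp only [Finset.sum_ite_eq', Finset.mem_univ, if_true]
  rw [← Pool.Agent.W22.ME.TD.lap_pd hs l y]
  unfold lap
  exact sub_self _

end

section

variable {T E D : ℝ} {G : Set ℝ} {u : ℝ → V → V} {p : ℝ → V → ℝ} {r : ℝ}

lemma DM_sum (h : Turb 1 T E D G u p) (hg : ContDiff ℝ ∞ (gg r))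
    (hg0 : ∀ z, 1 / 2 ≤ ‖z‖ → gg r z = 0) (x : V) (l : Fin 3) {τ : ℝ} (hτ : τ ∈ G) :
    ∑ i, DM 1 u p (fun _ => phi r x l i) i τ = HH r (u τ) x l := by
  have hu := h.spv hτ
  have hp := h.sp hτ
  have hui : ∀ i, Continuous fun y => u τ y i := fun i => (contDiff_pi.1 hu.1 i).continuous
  have hR : (0 : ℝ) < 1 / 2 := by norm_num
  have z1 : ∀ i, ∀ z ∉ ball x (1 / 2), lap (phi r x l i) z = 0 := fun i z hz =>
    lap_zero' (phi_sm hg x l i) hR (phi_z hg hg0 x l i) hz
  have z2 : ∀ i j, ∀ z ∉ ball x (1 / 2), pd j (phi r x l i) z = 0 := fun i j z hz =>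
    pd_zero' (phi_sm hg x l i) hR (phi_z hg hg0 x l i) hz j
  have c1 : ∀ i, Continuous (lap (phi r x l i)) := fun i => lap_ct (phi_sm hg x l i)
  have c2 : ∀ i j, Continuous (pd j (phi r x l i)) := fun i j =>
    (Pool.Agent.W583.MD.sm_pd (phi_sm hg x l i) j).continuous
  have c3 : ∀ i, Continuous (adv (u τ) (phi r x l i)) := fun i => by
    unfold adv
    exact continuous_finsetSum _ fun j _ => (hui j).mul (c2 i j)
  have z3 : ∀ i, ∀ z ∉ ball x (1 / 2), adv (u τ) (phi r x l i) z = 0 := fun i z hz => by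
    unfold adv
    exact Finset.sum_eq_zero fun j _ => by rw [z2 i j z hz, mul_zero]
  have i1 : ∀ i, Integrable fun y => u τ y i * lap (phi r x l i) y
      + u τ y i * adv (u τ) (phi r x l i) y := fun i =>
    int_csR (((hui i).mul (c1 i)).add ((hui i).mul (c3 i))) (a := x) (R := 1 / 2) fun y hy => by
      rw [z1 i y hy, z3 i y hy]
      ring
  have i2 : ∀ i, Integrable fun y => p τ y * pd i (phi r x l i) y := fun i =>
    int_csR (hp.smooth.continuous.mul (c2 i i)) (a := x) (R := 1 / 2) fun y hy => by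
      rw [z2 i i y hy, mul_zero]
  have e : ∀ i, DM 1 u p (fun _ => phi r x l i) i τ =
      (∫ y, (u τ y i * lap (phi r x l i) y + u τ y i * adv (u τ) (phi r x l i) y))
        + ∫ y, p τ y * pd i (phi r x l i) y := by
    intro i
    rw [← integral_add (i1 i) (i2 i)]
    unfold DM
    simp only [deriv_const, zero_add, one_mul]
  simp only [e]
  rw [Finset.sum_add_distrib, ← integral_finsetSum _ fun i _ => i2 i]
  have e2 : ∀ y, ∑ i, p τ y * pd i (phi r x l i) y = 0 := by
    intro y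
    rw [← Finset.mul_sum, phi_div hg x l y, mul_zero]
  simp only [e2, integral_zero, add_zero]
  rfl

/-- The evolution of the local mean velocity. -/
lemma MN_mod (hT : S_TCUT) (h : Turb 1 T E D G u p) (hg : ContDiff ℝ ∞ (gg r))
    (hg0 : ∀ z, 1 / 2 ≤ ‖z‖ → gg r z = 0) (x : V) (l : Fin 3) {s t : ℝ} (hs : s ∈ G)
    (ht : t ∈ G) (hst : s ≤ t) :
    IntegrableOn (fun τ => HH r (u τ) x l) (Ioo s t) ∧
      MN r (u t) x l - MN r (u s) x l = ∫ τ in Ioo s t, HH r (u τ) x l := by
  have hw := fun i => wmom hT h i (α := s - 1) (β := t + 1) (Φ := fun _ => phi r x l i)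
    (((phi_sm hg x l i).comp contDiff_snd).contDiffOn) (a := x) (R := 1 / 2) (by norm_num)
    (fun _ _ => phi_z hg hg0 x l i) hs ht (by linarith) hst (by linarith)
  have hae : ∀ᵐ τ ∂(volume.restrict (Ioo s t)), τ ∈ G :=
    aeT h (h.subG hs).1.le (h.subG ht).2.le
  have hi : IntegrableOn (fun τ => ∑ i, DM 1 u p (fun _ => phi r x l i) i τ) (Ioo s t) :=
    integrable_finsetSum _ fun i _ => (hw i).1
  have hcongr : (fun τ => ∑ i, DM 1 u p (fun _ => phi r x l i) i τ)
      =ᵐ[volume.restrict (Ioo s t)] fun τ => HH r (u τ) x l := by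
    filter_upwards [hae] with τ hτ
    exact DM_sum h hg hg0 x l hτ
  refine ⟨hi.congr hcongr, ?_⟩
  rw [← integral_congr_ae hcongr, integral_finsetSum _ fun i _ => (hw i).1]
  unfold MN
  rw [← Finset.sum_sub_distrib]
  exact Finset.sum_congr rfl fun i _ => (hw i).2

end

end Pool.Agent.Y458.NS
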