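import Pool.Agent.Y8.Stm2
import Pool.Agent.Y8.Maj
import Pool.Agent.W386.MD.PKa

/-!
Dyadic estimates of integrals against the weights `(r + |y - x|)^(-p)`.
-/

open MeasureTheory Set Metric
open scoped ContDiff

namespace Pool.Agent.Y458.NS

open H459R3.NS W221.NS Pool.Agent.Y8

lemma rrp (n : ℕ) : 0 < rr n := by unfold rr; positivity

lemma rr_half {n : ℕ} (hn : 1 ≤ n) : 2 ^ (n - 1) * rr n = 1 / 2 := by
  obtain ⟨m, rfl⟩ : ∃ m, n = m + 1 := ⟨n - 1, by omega⟩
  unfold rr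
  rw [Nat.add_sub_cancel, pow_succ, ← mul_assoc, ← mul_pow]
  norm_num

lemma rr_le_half {n k : ℕ} (hk : k < n) : 2 ^ k * rr n ≤ 1 / 2 := by
  rw [← rr_half (by omega : 1 ≤ n)]
  exact mul_le_mul_of_nonneg_right (pow_le_pow_right₀ (by norm_num) (by omega)) (rrp n).le

/-- the pointwise dyadic bound -/
lemma dy_pt {n : ℕ} (hn : 1 ≤ n) (p : ℕ) {s : ℝ} (hs0 : 0 ≤ s) (hs : s < 1 / 2) :
    ((rr n + s) ^ p)⁻¹ ≤ 2 ^ p * ∑ k ∈ Finset.range n, if s < 2 ^ k * rr n then
      ((2 ^ k * rr n) ^ p)⁻¹ else 0 := by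
  have hr := rrp n
  have hex : ∃ k, s < 2 ^ k * rr n := ⟨n - 1, by rw [rr_half hn]; exact hs⟩
  obtain ⟨k, hk, hmin⟩ : ∃ k, s < 2 ^ k * rr n ∧ ∀ j < k, ¬ s < 2 ^ j * rr n := by
    classical
    exact ⟨Nat.find hex, Nat.find_spec hex, fun j hj => Nat.find_min hex hj⟩
  have hkn : k < n := by
    by_contra h
    exact hmin (n - 1) (by omega) (by rw [rr_half hn]; exact hs)
  have hlow : 2 ^ k * rr n / 2 ≤ rr n + s := by
    rcases Nat.eq_zero_or_pos k with h0 | h0
    · subst h0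
      simp only [pow_zero, one_mul]
      linarith
    · have h1 := hmin (k - 1) (by omega)
      obtain ⟨m, rfl⟩ : ∃ m, k = m + 1 := ⟨k - 1, by omega⟩
      rw [Nat.add_sub_cancel, not_lt] at h1
      rw [pow_succ]
      linarith
  have h1 : ((rr n + s) ^ p)⁻¹ ≤ 2 ^ p * ((2 ^ k * rr n) ^ p)⁻¹ := by
    have h2 : ((rr n + s) ^ p)⁻¹ ≤ ((2 ^ k * rr n / 2) ^ p)⁻¹ := by
      apply inv_anti₀ (by positivity)
      exact pow_le_pow_left₀ (by positivity) hlow p
    refine h2.trans (le_of_eq ?_)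
    rw [div_pow, inv_div, div_eq_mul_inv]
  refine h1.trans (mul_le_mul_of_nonneg_left ?_ (by positivity))
  have h3 := Finset.single_le_sum (f := fun k => if s < 2 ^ k * rr n then
      ((2 ^ k * rr n) ^ p)⁻¹ else 0) (s := Finset.range n)
    (fun j _ => by
      show (0 : ℝ) ≤ if s < 2 ^ j * rr n then ((2 ^ j * rr n) ^ p)⁻¹ else 0
      split_ifs
      · positivity
      · exact le_rfl) (Finset.mem_range.2 hkn)
  simp only [if_pos hk] at h3
  exact h3

/-- the integrated dyadic bound -/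
lemma dy_int {n : ℕ} (hn : 1 ≤ n) (p : ℕ) (x : V) {f : V → ℝ} (hf : Continuous f)
    (hf0 : ∀ y, 0 ≤ f y) :
    ∫ y in ball x (1 / 2), f y * ((rr n + ‖y - x‖) ^ p)⁻¹
      ≤ 2 ^ p * ∑ k ∈ Finset.range n, ((2 ^ k * rr n) ^ p)⁻¹ *
        ∫ y in ball x (2 ^ k * rr n), f y := by
  have hr := rrp n
  have hw : Continuous (fun y : V => ((rr n + ‖y - x‖) ^ p)⁻¹) := by
    apply Continuous.inv₀ (by fun_prop)
    intro y
    have := norm_nonneg (y - x)
    positivity
  have hind : ∀ k, IntegrableOn (fun y => (ball x (2 ^ k * rr n)).indicator f y)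
      (ball x (1 / 2)) := fun k =>
    (ballint hf x (1 / 2)).indicator measurableSet_ball
  have h1 : ∫ y in ball x (1 / 2), f y * ((rr n + ‖y - x‖) ^ p)⁻¹ ≤
      ∫ y in ball x (1 / 2), 2 ^ p * ∑ k ∈ Finset.range n, ((2 ^ k * rr n) ^ p)⁻¹ *
        (ball x (2 ^ k * rr n)).indicator f y := by
    apply setIntegral_mono_on
    · exact ballint (hf.mul hw) x (1 / 2)
    · apply Integrable.const_mul
      exact integrable_finsetSum _ fun k _ => (hind k).const_mul _
    · exact measurableSet_ball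
    · intro y hy
      rw [mem_ball, dist_eq_norm] at hy
      have h2 := mul_le_mul_of_nonneg_left (dy_pt hn p (norm_nonneg (y - x)) hy) (hf0 y)
      refine h2.trans (le_of_eq ?_)
      rw [mul_left_comm, Finset.mul_sum]
      congr 1
      refine Finset.sum_congr rfl fun k _ => ?_
      by_cases h : ‖y - x‖ < 2 ^ k * rr n
      · rw [if_pos h, indicator_of_mem (by rw [mem_ball, dist_eq_norm]; exact h), mul_comm]
      · rw [if_neg h, indicator_of_notMem (by rw [mem_ball, dist_eq_norm]; exact h)]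
        ring
  refine h1.trans ?_
  rw [integral_const_mul, integral_finsetSum _ fun k _ => (hind k).const_mul _]
  apply mul_le_mul_of_nonneg_left _ (by positivity)
  apply Finset.sum_le_sum
  intro k hk
  rw [integral_const_mul]
  apply mul_le_mul_of_nonneg_left _ (by positivity)
  rw [setIntegral_indicator measurableSet_ball]
  exact setIntegral_mono_set (ballint hf _ _) (Filter.Eventually.of_forall hf0)
    inter_subset_right.eventuallyLE

lemma B2_nn (a : V) (ρ : ℝ) (v : V → V) : 0 ≤ B2 a ρ v :=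
  integral_nonneg fun z => gsq_nn v z

lemma NN2_nn (n : ℕ) (u : V → V) (x : V) : 0 ≤ NN2 n u x := by
  unfold NN2
  have := rrp n
  exact Finset.sum_nonneg fun k _ => mul_nonneg (by positivity) (B2_nn _ _ _)

/-- the oscillation around the mean in terms of the weighted dissipation -/
lemma dyA2 {C : ℝ} (hC : 0 < C) (h : ∀ u : V → V, ContDiff ℝ ∞ u → ∀ (x : V) (r : ℝ), 0 < r →
    ∀ k : ℕ, A2 x (2 ^ k * r) (fun y => u y - mo r u x) ≤ C * (2 ^ k * r) ^ 3 *
      ∑ j ∈ Finset.range (k + 1), (3 / 2) ^ (k - j) * ((2 ^ j * r)⁻¹ * B2 x (2 ^ (j + 1) * r) u))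
    {u : V → V} (hu : ContDiff ℝ ∞ u) (x : V) {n k : ℕ} (hk : k < n) :
    A2 x (2 ^ k * rr n) (fun y => u y - mo (rr n) u x) ≤
      C * (2 ^ k * rr n) ^ 3 * 8 ^ k * (NN2 n u x * rr n) := by
  have hr := rrp n
  refine (h u hu x (rr n) hr k).trans ?_
  rw [mul_assoc (C * (2 ^ k * rr n) ^ 3)]
  apply mul_le_mul_of_nonneg_left _ (by positivity)
  unfold NN2
  rw [Finset.sum_mul, Finset.mul_sum]
  have h1 : ∀ j ∈ Finset.range (k + 1),
      (3 / 2) ^ (k - j) * ((2 ^ j * rr n)⁻¹ * B2 x (2 ^ (j + 1) * rr n) u) ≤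
      8 ^ k * (rr n ^ 2 * ((2 ^ j * rr n) ^ 4)⁻¹ * B2 x (2 ^ (j + 1) * rr n) u * rr n) := by
    intro j hj
    rw [Finset.mem_range] at hj
    have hB := B2_nn x (2 ^ (j + 1) * rr n) u
    have e1 : (8 : ℝ) ^ k * (rr n ^ 2 * ((2 ^ j * rr n) ^ 4)⁻¹ * B2 x (2 ^ (j + 1) * rr n) u
        * rr n) = 8 ^ (k - j) * ((2 ^ j * rr n)⁻¹ * B2 x (2 ^ (j + 1) * rr n) u) := by
      have e2 : (8 : ℝ) ^ k = 8 ^ (k - j) * 8 ^ j := by
        rw [← pow_add]
        congr 1
        omega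
      have e3 : (8 : ℝ) ^ j = (2 ^ j) ^ 3 := by
        rw [← pow_mul, mul_comm, pow_mul]
        norm_num
      have hr' : rr n ≠ 0 := hr.ne'
      rw [e2, e3]
      field_simp
    rw [e1]
    apply mul_le_mul_of_nonneg_right _ (by positivity)
    exact pow_le_pow_left₀ (by norm_num) (by norm_num) _
  refine (Finset.sum_le_sum h1).trans ?_
  apply Finset.sum_le_sum_of_subset_of_nonneg
  · intro j hj
    rw [Finset.mem_range] at *
    omega
  · intro j _ _
    have hB := B2_nn x (2 ^ (j + 1) * rr n) u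
    positivity

end Pool.Agent.Y458.NS
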