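import Pool.Agent.Y8.Stm6
import Pool.Agent.W327.ME.HYP

/-!
Job 350 (helper458 for helper8): from a weak solution to the hypothesis of the local theorem.
-/

open MeasureTheory Set Metric
open scoped ContDiff ENNReal Topology

namespace Pool.Agent.Y458.NS.HY

open H459R3.NS W221.NS Pool.Agent.W327.ME Pool.Agent.Y8

theorem sliceH {H : Set ℝ} {F : ℝ → V → V}
    (hF : ContDiffOn ℝ ∞ (fun z : ℝ × V => F z.1 z.2) (H ×ˢ univ)) {t : ℝ}
    (ht : t ∈ H) : ContDiff ℝ ∞ (F t) := by
  rw [← contDiffOn_univ]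
  exact hF.comp (contDiff_const.prodMk contDiff_id).contDiffOn (fun x _ => ⟨ht, mem_univ _⟩)

theorem sliceH1 {H : Set ℝ} {F : ℝ → V → ℝ}
    (hF : ContDiffOn ℝ ∞ (fun z : ℝ × V => F z.1 z.2) (H ×ˢ univ)) {t : ℝ}
    (ht : t ∈ H) : ContDiff ℝ ∞ (F t) := by
  rw [← contDiffOn_univ]
  exact hF.comp (contDiff_const.prodMk contDiff_id).contDiffOn (fun x _ => ⟨ht, mem_univ _⟩)

theorem dtH_smooth1 {H : Set ℝ} (hH : IsOpen H) {F : ℝ → V → ℝ}
    (hF : ContDiffOn ℝ ∞ (fun z : ℝ × V => F z.1 z.2) (H ×ˢ univ)) {t : ℝ}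
    (ht : t ∈ H) : ContDiff ℝ ∞ (fun x => deriv (fun s => F s x) t) := by
  have h1 : ContDiffOn ℝ ∞ (fderiv ℝ (fun z : ℝ × V => F z.1 z.2)) (H ×ˢ univ) :=
    hF.fderiv_of_isOpen (hH.prod isOpen_univ) (by simp)
  have h2 : ContDiffOn ℝ ∞ (fun z : ℝ × V => fderiv ℝ (fun z : ℝ × V => F z.1 z.2) z (1, 0))
      (H ×ˢ univ) := h1.clm_apply contDiffOn_const
  have h3 : ContDiff ℝ ∞ (fun x : V => fderiv ℝ (fun z : ℝ × V => F z.1 z.2) (t, x) (1, 0)) := by
    rw [← contDiffOn_univ]
    exact h2.comp (contDiff_const.prodMk contDiff_id).contDiffOn (fun x _ => ⟨ht, mem_univ _⟩)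
  have e : (fun x => deriv (fun s => F s x) t) =
      fun x : V => fderiv ℝ (fun z : ℝ × V => F z.1 z.2) (t, x) (1, 0) := by
    funext x
    have hmem : H ×ˢ (univ : Set V) ∈ 𝓝 (t, x) :=
      prod_mem_nhds (hH.mem_nhds ht) Filter.univ_mem
    have hd : DifferentiableAt ℝ (fun z : ℝ × V => F z.1 z.2) (t, x) :=
      (hF.contDiffAt hmem).differentiableAt (by simp)
    have hc : HasDerivAt (fun s : ℝ => ((s, x) : ℝ × V)) (1, 0) t :=
      (hasDerivAt_id t).prodMk (hasDerivAt_const t x)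
    have := hd.hasFDerivAt.comp_hasDerivAt t hc
    exact this.deriv
  rw [e]
  exact h3

theorem dtH_smooth {H : Set ℝ} (hH : IsOpen H) {F : ℝ → V → V}
    (hF : ContDiffOn ℝ ∞ (fun z : ℝ × V => F z.1 z.2) (H ×ˢ univ)) {t : ℝ}
    (ht : t ∈ H) : ContDiff ℝ ∞ (fun x i => deriv (fun s => F s x i) t) := by
  rw [contDiff_pi]
  intro i
  exact dtH_smooth1 hH (F := fun s x => F s x i) (contDiffOn_pi.1 hF i) ht

/-- the energy of `W` from the energy of `v` and a bound of the difference -/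
theorem A2_diff {v W : V → V} (hv : Continuous v) (hW : Continuous W) {M : ℝ}
    (hM : ∀ x ∈ ball (0 : V) 1, ∀ i, |v x i - W x i| ≤ M) :
    A2 0 1 W ≤ 2 * A2 0 8 v + 48 * M ^ 2 := by
  have h1 : A2 0 1 W ≤ ∫ z in ball (0 : V) 1, (2 * nsq v z + 6 * M ^ 2) := by
    unfold A2
    apply setIntegral_mono_on (iob (nsq_cont hW) _ _) _ measurableSet_ball
    · intro z hz
      unfold nsq
      have h2 : ∀ i, W z i ^ 2 ≤ 2 * v z i ^ 2 + 2 * M ^ 2 := by
        intro i
        have h3 := hM z hz i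
        have h4 : (v z i - W z i) ^ 2 ≤ M ^ 2 := by
          rw [← sq_abs]
          exact pow_le_pow_left₀ (abs_nonneg _) h3 2
        nlinarith [sq_nonneg (2 * v z i - W z i)]
      calc ∑ i, W z i ^ 2 ≤ ∑ i : Fin 3, (2 * v z i ^ 2 + 2 * M ^ 2) :=
            Finset.sum_le_sum fun i _ => h2 i
        _ = 2 * ∑ i, v z i ^ 2 + 6 * M ^ 2 := by
            rw [Finset.sum_add_distrib, ← Finset.mul_sum]
            simp
            ring
    · exact iob (by have := nsq_cont hv; fun_prop) _ _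
  have h2 : ∫ z in ball (0 : V) 1, (2 * nsq v z + 6 * M ^ 2) = 2 * A2 0 1 v + 48 * M ^ 2 := by
    rw [integral_add, setIntegral_const, integral_const_mul]
    · have hvol : (volume (ball (0 : V) 1)).toReal = 8 := by
        rw [Real.volume_pi_ball _ (by norm_num), ENNReal.toReal_ofReal (by positivity)]
        simp
        norm_num
      unfold A2
      rw [Measure.real, hvol, smul_eq_mul]
      ring
    · exact iob (by have := nsq_cont hv; fun_prop) _ _
    · exact iob continuous_const _ _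
  have h3 : A2 0 1 v ≤ A2 0 8 v := by
    unfold A2
    exact setIntegral_mono_set (iob (nsq_cont hv) _ _)
      (Filter.Eventually.of_forall fun z => nsq_nonneg v z)
      (Filter.Eventually.of_forall (ball_subset_ball (by norm_num)))
  rw [h2] at h1
  linarith

theorem t_WHYP (h1 : S_TSMH) (h2 : S_DEC) (h3 : S_DECT) (h4 : S_GROW) (h5 : S_FLD)
    (h6 : S_WEN) : S_WHYP := by
  intro g C hg
  obtain ⟨Cg, hCg, hgrow⟩ := h4
  obtain ⟨CD, hCD, hdec⟩ := h2 g C hg
  obtain ⟨CT, hCT, hdect⟩ := h3 g C hg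
  set K4 : ℝ := 128 * Cg with hK4
  have hK4pos : 0 < K4 := by positivity
  set C' : ℝ := 1 + 257 * K4 * CD ^ 2 + (1 + CT) * K4 + CT ^ 2 with hC'
  have e1 : 0 < 257 * K4 * CD ^ 2 := by positivity
  have e2 : 0 < (1 + CT) * K4 := by positivity
  have e3 : 0 < CT ^ 2 := by positivity
  have hC'pos : 0 < C' := by rw [hC']; linarith
  refine ⟨C', hC'pos, ?_⟩
  intro H v q k hL ε hint hle
  obtain ⟨hWs, hWt⟩ := h1 g C hg H v hL.openH hL.smooth_v
  obtain ⟨F, hF, hFe⟩ := h5 g C hg H v q k hL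
  have hen : EnW H (fun t => TT g (v t)) :=
    h6 H v (fun t => TT g (v t)) F q k hL hF hWs hFe
  have hsub : ∀ t ∈ H, t ∈ Icc (-1 : ℝ) 0 := fun t ht =>
    ⟨(hL.subH ht).1.le, (hL.subH ht).2.le⟩
  refine ⟨F,
    { openH := hL.openH
      subH := hL.subH
      fullH := hL.fullH
      smooth_v := hL.smooth_v
      smooth_W := hWs
      slice := ?_
      Gint := hint.const_mul C'
      Gle := ?_
      kint := hL.kint
      knn := hL.knn
      bdd := ?_
      fld := hF
      eqF := hFe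
      en := hen }⟩
  · intro t ht
    have hv : ContDiff ℝ ∞ (v t) := sliceH hL.smooth_v ht
    have hq : ContDiff ℝ ∞ (q t) := sliceH1 hL.smooth_q ht
    have hN : ContDiff ℝ ∞ (fun x i => deriv (fun s => v s x i) t) :=
      dtH_smooth hL.openH hL.smooth_v ht
    set B := B2 0 8 (v t) with hB
    have hB0 : 0 ≤ B := B2_nonneg _ _ _
    have hs0 : 0 ≤ √B := Real.sqrt_nonneg B
    have hL4 : √(L4 0 4 (v t)) ≤ K4 * B := grow_bd hCg hv (hgrow (v t) hv (hL.mean t ht) 2)
    have hL40 : 0 ≤ L4 0 4 (v t) := integral_nonneg fun z => by positivity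
    have hL4' : L4 0 4 (v t) ≤ (K4 * B) ^ 2 := by
      rw [← Real.sqrt_le_left (by positivity)]
      exact hL4
    have hA2 : A2 0 4 (v t) ≤ 257 * K4 * B := by
      refine (A2_le hv).trans ?_
      calc 257 * √(L4 0 4 (v t)) ≤ 257 * (K4 * B) := by linarith
        _ = 257 * K4 * B := by ring
    obtain ⟨hW1, hW2, hW3, hW4⟩ := hdec (v t) hv (fun x _ => hL.divfree t ht x)
    obtain ⟨P, hP1, hP2, hP3, hP4⟩ := hdect (v t) (fun x i => deriv (fun s => v s x i) t) (q t)
      hv hN hq (fun x _ => hL.divfree t ht x) (fun x _ i => hL.momentum t ht x i)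
    have hb12 : ball (0 : V) 1 ⊆ ball 0 2 := ball_subset_ball (by norm_num)
    have hsq : CD * √(A2 0 4 (v t)) ≤ √(C' * B) := by
      have : CD * √(A2 0 4 (v t)) = √(CD ^ 2 * A2 0 4 (v t)) := by
        rw [Real.sqrt_mul (by positivity), Real.sqrt_sq hCD.le]
      rw [this]
      apply Real.sqrt_le_sqrt
      calc CD ^ 2 * A2 0 4 (v t) ≤ CD ^ 2 * (257 * K4 * B) :=
            mul_le_mul_of_nonneg_left hA2 (by positivity)
        _ = (257 * K4 * CD ^ 2) * B := by ring
        _ ≤ C' * B := mul_le_mul_of_nonneg_right (by rw [hC']; linarith) hB0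
    refine ⟨P, ?_⟩
    refine
      { sv := hv
        sW := hW1
        sN := (dtH_smooth hL.openH hWs ht).continuous
        sP := hP1
        divv := fun x _ => hL.divfree t ht x
        divW := fun x _ => hW2 x
        mean := hL.mean t ht
        grad := ?_
        dD := fun z hz i => ((hW4 z hz i).1).trans hsq
        gD := fun z hz i j => ((hW4 z hz i).2 j).trans hsq
        lapD := fun z hz i => hW3 z (hb12 hz) i
        eqP := hP2
        nP := ?_
        evo := ?_ }
    · calc B2 0 8 (v t) = 1 * B := by rw [one_mul]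
        _ ≤ C' * B := mul_le_mul_of_nonneg_right (by rw [hC']; linarith) hB0
    · refine hP3.trans ?_
      calc CT * L4 0 4 (v t) ≤ CT * (K4 * B) ^ 2 := mul_le_mul_of_nonneg_left hL4' hCT.le
        _ ≤ (1 + CT) ^ 2 * (K4 * B) ^ 2 := by
            apply mul_le_mul_of_nonneg_right _ (by positivity)
            nlinarith
        _ = ((1 + CT) * K4 * B) ^ 2 := by ring
        _ ≤ (C' * B) ^ 2 := by
            apply pow_le_pow_left₀ (by positivity)
            exact mul_le_mul_of_nonneg_right (by rw [hC']; linarith) hB0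
    · intro x hx i
      have h5 := hP4 x hx i
      have h6 : deriv (fun s => TT g (v s) x i) t =
          TT g (fun y i => deriv (fun s => v s y i) t) x i := hWt t ht x i
      show |deriv (fun s => TT g (v s) x i) t + adv (v t) (fun y => v t y i) x -
        lap (fun y => v t y i) x + pd i P x| ≤ √(C' * B) + C' * B
      rw [h6]
      refine h5.trans ?_
      have h7 : √(B2 0 4 (v t)) ≤ √B := Real.sqrt_le_sqrt (B2_mono hv (by norm_num))
      have h8 : CT * √B ≤ √(C' * B) := by
        have : CT * √B = √(CT ^ 2 * B) := by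
          rw [Real.sqrt_mul (by positivity), Real.sqrt_sq hCT.le]
        rw [this]
        apply Real.sqrt_le_sqrt
        exact mul_le_mul_of_nonneg_right (by rw [hC']; linarith) hB0
      have h9 : CT * (K4 * B) ≤ C' * B := by
        calc CT * (K4 * B) = CT * K4 * B := by ring
          _ ≤ C' * B := by
            apply mul_le_mul_of_nonneg_right _ hB0
            rw [hC']
            nlinarith
      calc CT * (√(B2 0 4 (v t)) + √(L4 0 4 (v t))) ≤ CT * (√B + K4 * B) :=
            mul_le_mul_of_nonneg_left (add_le_add h7 hL4) hCT.le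
        _ = CT * √B + CT * (K4 * B) := by ring
        _ ≤ √(C' * B) + C' * B := add_le_add h8 h9
  · rw [integral_const_mul]
    exact hle
  · obtain ⟨B0, hB0⟩ := hL.bdd
    obtain ⟨M, hM⟩ := hF.bd
    refine ⟨2 * B0 + 48 * M ^ 2, ?_⟩
    intro t ht
    have h7 : A2 0 1 (TT g (v t)) ≤ 2 * A2 0 8 (v t) + 48 * M ^ 2 := by
      apply A2_diff (sliceH hL.smooth_v ht).continuous (sliceH hWs ht).continuous
      intro x hx i
      rw [← hFe t ht x hx i]
      exact (norm_le_pi_norm (F t x) i).trans (hM t (hsub t ht) x)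
    have h8 := hB0 t ht
    show A2 0 1 (TT g (v t)) ≤ _
    linarith

end Pool.Agent.Y458.NS.HY
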