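import Pool.Agent.Y458.NS.Wk
import Pool.Agent.W648.MD.LOC

/-!
The weak local regularity theorem from the base case and the induction step.
-/

open MeasureTheory Set Metric
open scoped ContDiff

namespace Pool.Agent.Y458.NS

open H459R3.NS W221.NS Pool.Agent.Y8

/-- Monotonicity of the induction hypothesis. -/
theorem WIH_mono {H : Set ℝ} {Λ Λ' : ℝ} (h : Λ ≤ Λ') {a : V} {s : ℝ} {v : ℝ → V → V} {k : ℕ}
    (hI : WIH H Λ a s v k) : WIH H Λ' a s v k := by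
  have h8 : (0 : ℝ) < 8 ^ k := by positivity
  have h1 : Λ / 8 ^ k ≤ Λ' / 8 ^ k := (div_le_div_iff_of_pos_right h8).2 h
  exact ⟨fun t ht ht1 ht2 => (hI.1 t ht ht1 ht2).trans h1, hI.2.trans h1⟩

/-- The base case. -/
theorem wbase {H : Set ℝ} {v : ℝ → V → V} {q : ℝ → V → ℝ} {G : ℝ → ℝ} {ε K Λ : ℝ}
    (h : WHyp H v q G ε) (hK0 : 0 ≤ K) (hε : 0 ≤ ε)
    (hK : ∀ t ∈ H, -9 / 16 < t → A2 0 (3 / 4) (v t) ≤ K * ε)
    (hΛ : 8 ^ 5 * ((1 + K) * ε) ≤ Λ) {a : V} (ha : a ∈ ball (0 : V) (1 / 4)) {s : ℝ}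
    (hsH : s ∈ H) (hs : -1 / 16 < s) {k : ℕ} (hk : 2 ≤ k) (hk5 : k ≤ 5) : WIH H Λ a s v k := by
  have hr := Pool.Agent.W648.MD.rr_le_quarter hk
  have hr0 := Pool.Agent.W648.MD.rr_pos k
  have hr2 : rr k ^ 2 ≤ 1 / 16 := by nlinarith
  have ha' : dist a 0 < 1 / 4 := mem_ball.1 ha
  have hsub1 : ball a (rr k) ⊆ ball (0 : V) (3 / 4) := by
    refine ball_subset_ball' ?_
    linarith
  have hsub2 : ball a (rr k) ⊆ ball (0 : V) 2 := by
    refine ball_subset_ball' ?_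
    linarith
  have h8 : (0 : ℝ) < 8 ^ k := by positivity
  have h85 : (8 : ℝ) ^ k ≤ 8 ^ 5 := pow_le_pow_right₀ (by norm_num) hk5
  have hpos : 0 ≤ (1 + K) * ε := by positivity
  have hkey : (1 + K) * ε ≤ Λ / 8 ^ k := by
    rw [le_div_iff₀ h8]
    calc (1 + K) * ε * 8 ^ k ≤ (1 + K) * ε * 8 ^ 5 := mul_le_mul_of_nonneg_left h85 hpos
      _ = 8 ^ 5 * ((1 + K) * ε) := by ring
      _ ≤ Λ := hΛ
  obtain ⟨hloc, hsl, hGi, hGe⟩ := h
  have hs2 : s < 0 := (hloc.subH hsH).2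
  have hsm : ∀ t ∈ H, ContDiff ℝ ∞ (v t) := fun t ht => by
    obtain ⟨P, hP⟩ := hsl t ht
    exact hP.sv
  refine ⟨fun t ht ht1 ht2 => ?_, ?_⟩
  · have h1 := A2_mono (hsm t ht) hsub1
    have h2 := hK t ht (by linarith)
    nlinarith
  · have hsub : Ioc (s - rr k ^ 2) s ⊆ Ioo (-1 : ℝ) 0 := fun t ht =>
      ⟨by have := ht.1; linarith, by have := ht.2; linarith⟩
    have hle : ∀ t ∈ H, B2 a (rr k) (v t) ≤ G t := fun t ht => by
      obtain ⟨P, hP⟩ := hsl t ht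
      exact (B2_mono hP.sv hsub2).trans hP.grad
    have hG0 : ∀ t ∈ H, 0 ≤ G t := fun t ht =>
      (W612.MD.B2_nonneg a (rr k) (v t)).trans (hle t ht)
    have hi : IntegrableOn G (Ioc (s - rr k ^ 2) s) := hGi.mono_set hsub
    have h1 : ∫ t in Ioc (s - rr k ^ 2) s, B2 a (rr k) (v t) ≤
        ∫ t in Ioc (s - rr k ^ 2) s, G t := by
      refine integral_mono_of_nonneg
        (Filter.Eventually.of_forall fun t => W612.MD.B2_nonneg _ _ _) hi ?_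
      filter_upwards [ae_mem hloc.fullH hsub measurableSet_Ioc] with t ht using hle t ht
    have h2 : ∫ t in Ioc (s - rr k ^ 2) s, G t ≤ ∫ t in Ioo (-1 : ℝ) 0, G t := by
      refine setIntegral_mono_set hGi ?_ (Filter.Eventually.of_forall hsub)
      filter_upwards [ae_mem hloc.fullH subset_rfl measurableSet_Ioo] with t ht using hG0 t ht
    nlinarith

theorem t_WLOC (hB : S_WBASE) (hS : S_WSTEP) : S_WLOC := by
  obtain ⟨K, ε₀, hK, hε₀, hB⟩ := hB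
  obtain ⟨C, hC, hS⟩ := hS
  set C₁ : ℝ := 8 ^ 5 * ((1 + K) * (1 + C)) with hC₁
  have hC₁0 : 0 < C₁ := by positivity
  set ε : ℝ := min ε₀ (min 1 (1 / (4 * C ^ 2 * C₁))) with hε
  have hε0 : 0 < ε := by
    refine lt_min hε₀ (lt_min one_pos ?_)
    positivity
  have hε1 : ε ≤ ε₀ := min_le_left _ _
  have hε2 : ε ≤ 1 := (min_le_right _ _).trans (min_le_left _ _)
  have hε3 : ε ≤ 1 / (4 * C ^ 2 * C₁) := (min_le_right _ _).trans (min_le_right _ _)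
  set Λ : ℝ := C₁ * ε with hΛ
  have hΛ0 : 0 < Λ := by positivity
  have hΛC : C ^ 2 * Λ ≤ 1 / 4 := by
    rw [le_div_iff₀ (by positivity)] at hε3
    rw [hΛ]
    nlinarith
  have hsq : C * √Λ ≤ 1 / 2 := by
    have h1 : (C * √Λ) ^ 2 ≤ (1 / 2) ^ 2 := by
      rw [mul_pow, Real.sq_sqrt hΛ0.le]
      linarith
    exact le_of_sq_le_sq h1 (by norm_num)
  have hb : 8 ^ 5 * ((1 + K) * ε) ≤ Λ := by
    have h1 : 0 ≤ 8 ^ 5 * ((1 + K) * ε) * C := by positivity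
    calc 8 ^ 5 * ((1 + K) * ε) ≤ 8 ^ 5 * ((1 + K) * ε) + 8 ^ 5 * ((1 + K) * ε) * C := by
          linarith
      _ = Λ := by rw [hΛ, hC₁]; ring
  have hstep : C * ((1 + K) * ε + Λ * √Λ) ≤ Λ := by
    have h1 : C * ((1 + K) * ε) ≤ Λ / 2 := by
      have h2 : 0 ≤ (1 + K) * ε := by positivity
      have h3 : 0 ≤ C * ((1 + K) * ε) := by positivity
      have h4 : Λ = 8 ^ 5 * ((1 + K) * ε) + 8 ^ 5 * (C * ((1 + K) * ε)) := by
        rw [hΛ, hC₁]; ring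
      rw [h4]
      norm_num
      nlinarith
    have h2 : C * (Λ * √Λ) ≤ Λ / 2 := by
      calc C * (Λ * √Λ) = Λ * (C * √Λ) := by ring
        _ ≤ Λ * (1 / 2) := mul_le_mul_of_nonneg_left hsq hΛ0.le
        _ = Λ / 2 := by ring
    rw [mul_add]
    linarith
  refine ⟨ε, √Λ, hε0, Real.sqrt_pos.2 hΛ0, ?_⟩
  intro H v q G h s hsH hs a ha i
  have hKε : ∀ t ∈ H, -9 / 16 < t → A2 0 (3 / 4) (v t) ≤ K * ε := hB ε hε0 hε1 H v q G h
  have hall : ∀ n k : ℕ, 2 ≤ k → k ≤ n → WIH H Λ a s v k := by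
    intro n
    induction n with
    | zero => intro k hk1 hk2; omega
    | succ n ih =>
      intro k hk1 hk2
      rcases Nat.lt_or_ge k (n + 1) with hlt | hge
      · exact ih k hk1 (by omega)
      · have hkn : k = n + 1 := by omega
        subst hkn
        rcases Nat.lt_or_ge n 5 with h5 | h5
        · exact wbase h hK.le hε0.le hKε hb ha hsH hs hk1 (by omega)
        · exact WIH_mono hstep
            (hS ε hε0 hε2 H v q G h K hK.le hKε Λ hΛ0.le a ha s hsH hs n h5 ih)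
  have hv : ContDiff ℝ ∞ (v s) := by
    obtain ⟨P, hP⟩ := h.2.1 s hsH
    exact hP.sv
  have hA : ∀ k : ℕ, 2 ≤ k → A2 a (rr k) (v s) ≤ Λ / 8 ^ k := fun k hk =>
    (hall k k hk le_rfl).1 s hsH (by have := Pool.Agent.W648.MD.rr_pos k; nlinarith) le_rfl
  have hn := Pool.Agent.W648.MD.nsq_le_of_A2 hv a Λ hA
  have hi : v s a i ^ 2 ≤ nsq (v s) a := by
    unfold nsq
    exact Finset.single_le_sum (f := fun i => v s a i ^ 2) (fun j _ => sq_nonneg _)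
      (Finset.mem_univ i)
  refine Real.abs_le_sqrt ?_
  linarith

end Pool.Agent.Y458.NS
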