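import Pool.Agent.Y458.NS.Wk

/-!
The induction step of the weak local regularity theorem.
-/

open MeasureTheory Set Metric
open scoped ContDiff

namespace Pool.Agent.Y458.NS

open H459R3.NS W221.NS Pool.Agent.Y8 W612.MD

lemma meas_of_cont' {H J : Set ℝ} (hH : IsOpen H)
    (hJ : ∀ᵐ t ∂(volume.restrict J), t ∈ H) (hJm : MeasurableSet J)
    {f : ℝ → ℝ} (hf : ContinuousOn f H) : AEStronglyMeasurable f (volume.restrict J) := by
  have h1 : AEStronglyMeasurable f (volume.restrict H) :=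
    hf.aestronglyMeasurable hH.measurableSet
  have h2 : (J : Set ℝ) ≤ᵐ[volume] H := by
    rw [ae_restrict_iff' hJm] at hJ
    exact hJ
  exact h1.mono_measure (Measure.restrict_mono_ae h2)

lemma young {ε K CP CL CS M Λ S I : ℝ} (hε : 0 < ε) (hε1 : ε ≤ 1) (hK : 0 ≤ K) (hCP : 0 < CP)
    (hCL : 0 < CL) (hCS : 0 < CS) (hM : 0 ≤ M) (hΛ : 0 ≤ Λ) (hS0 : 0 ≤ S) (hSle : S ≤ I)
    (hval : I ≤ M * (K * ε) + CP * (ε * √(K * ε) + 3 * √ε * √S + CL * √Λ * (CS * Λ))) :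
    I ≤ 2 * (M + CP + 9 / 2 * CP ^ 2 + CP * CL * CS) * ((1 + K) * ε + Λ * √Λ) := by
  have y1 : CP * (3 * √ε * √S) ≤ S / 2 + 9 / 2 * CP ^ 2 * ε := by
    have a1 := Real.sq_sqrt hS0
    have a2 := Real.sq_sqrt hε.le
    have a3 := sq_nonneg (√S - 3 * CP * √ε)
    have a4 : (√S - 3 * CP * √ε) ^ 2 = S - 2 * (CP * (3 * √ε * √S)) + 9 * CP ^ 2 * ε := by
      calc (√S - 3 * CP * √ε) ^ 2 = √S ^ 2 - 2 * (CP * (3 * √ε * √S)) + 9 * CP ^ 2 * √ε ^ 2 := by
            ring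
        _ = _ := by rw [a1, a2]
    linarith
  have y2 : ε * √(K * ε) ≤ (1 + K) * ε := by
    have a1 : √(K * ε) ≤ 1 + K := by
      apply Real.sqrt_le_iff.2 ⟨by linarith, ?_⟩
      have : K * ε ≤ K := mul_le_of_le_one_right hK hε1
      nlinarith
    nlinarith
  have y3 : I ≤ (M + CP + 9 / 2 * CP ^ 2 + CP * CL * CS) * ((1 + K) * ε + Λ * √Λ) + S / 2 := by
    have a0 : 0 ≤ Λ * √Λ := mul_nonneg hΛ (Real.sqrt_nonneg _)
    have a1 : CP * (ε * √(K * ε)) ≤ CP * ((1 + K) * ε) := mul_le_mul_of_nonneg_left y2 hCP.le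
    have a2 : 0 ≤ K * ε := by positivity
    have a3 : M * (K * ε) ≤ M * ((1 + K) * ε) :=
      mul_le_mul_of_nonneg_left (by linarith) hM
    have a4 : 9 / 2 * CP ^ 2 * ε ≤ 9 / 2 * CP ^ 2 * ((1 + K) * ε) :=
      mul_le_mul_of_nonneg_left (by linarith) (by positivity)
    have a5 : 0 ≤ M * (Λ * √Λ) := mul_nonneg hM a0
    have a6 : 0 ≤ CP * (Λ * √Λ) := mul_nonneg hCP.le a0
    have a7 : 0 ≤ 9 / 2 * CP ^ 2 * (Λ * √Λ) := mul_nonneg (by positivity) a0
    have a8 : 0 ≤ CP * CL * CS * ((1 + K) * ε) := by positivity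
    have a9 : CP * (ε * √(K * ε) + 3 * √ε * √S + CL * √Λ * (CS * Λ))
        = CP * (ε * √(K * ε)) + CP * (3 * √ε * √S) + CP * CL * CS * (Λ * √Λ) := by ring
    rw [a9] at hval
    have a10 : (M + CP + 9 / 2 * CP ^ 2 + CP * CL * CS) * ((1 + K) * ε + Λ * √Λ)
        = M * ((1 + K) * ε) + CP * ((1 + K) * ε) + 9 / 2 * CP ^ 2 * ((1 + K) * ε)
          + CP * CL * CS * ((1 + K) * ε) + M * (Λ * √Λ) + CP * (Λ * √Λ)
          + 9 / 2 * CP ^ 2 * (Λ * √Λ) + CP * CL * CS * (Λ * √Λ) := by ring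
    rw [a10]
    linarith
  have a10 : 2 * (M + CP + 9 / 2 * CP ^ 2 + CP * CL * CS) * ((1 + K) * ε + Λ * √Λ)
    = 2 * ((M + CP + 9 / 2 * CP ^ 2 + CP * CL * CS) * ((1 + K) * ε + Λ * √Λ)) := by ring
  rw [a10]
  linarith

/-- the energy inequality with absorption -/
lemma wabsorb {E D G T F : ℝ → ℝ} {H : Set ℝ} {s0 s1 ε K CP CL CS M Λ : ℝ} (h01 : s0 ≤ s1)
    (hlen : s1 - s0 ≤ 1) (hε : 0 < ε) (hε1 : ε ≤ 1) (hK : 0 ≤ K) (hCP : 0 < CP) (hCL : 0 < CL)
    (hCS : 0 < CS) (hM : 0 ≤ M) (hΛ : 0 ≤ Λ) (h0H : s0 ∈ H)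
    (hHae : ∀ᵐ t ∂(volume.restrict (Ioo s0 s1)), t ∈ H)
    (hbd : ∃ B, ∀ t ∈ H, s0 ≤ t → t ≤ s1 → E t ≤ B)
    (hen : ∀ t ∈ H, s0 ≤ t → t ≤ s1 → IntegrableOn F (Ioo s0 t) ∧ E t ≤ ∫ x in Ioo s0 t, F x)
    (hDi : IntegrableOn D (Ioo s0 s1)) (hD : ∀ t ∈ H, s0 ≤ t → t ≤ s1 → 0 ≤ D t)
    (hE : ∀ t ∈ H, s0 ≤ t → t ≤ s1 → 0 ≤ E t)
    (hGi : IntegrableOn G (Ioo s0 s1)) (hG : ∀ t ∈ H, s0 ≤ t → t ≤ s1 → 0 ≤ G t)
    (hGε : ∫ t in Ioo s0 s1, G t ≤ ε)
    (hTi : IntegrableOn T (Ioo s0 s1)) (hT : ∀ t, 0 ≤ T t)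
    (hTΛ : ∫ t in Ioo s0 s1, T t ≤ CS * Λ)
    (hineq : ∀ t ∈ H, s0 < t → t < s1 → F t ≤ -2 * D t + M * (K * ε)
      + CP * (G t * √(K * ε) + (√(G t) + G t) * √(E t) + CL * √Λ * T t)) :
    ∀ t ∈ H, s0 ≤ t → t ≤ s1 → E t + 2 * ∫ x in Ioo s0 t, D x
      ≤ 2 * (M + CP + 9 / 2 * CP ^ 2 + CP * CL * CS) * ((1 + K) * ε + Λ * √Λ) := by
  obtain ⟨X, hX⟩ : ∃ X : Set ℝ, X = E '' (H ∩ Icc s0 s1) := ⟨_, rfl⟩
  have hXb : BddAbove X := by
    obtain ⟨B, hB⟩ := hbd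
    refine ⟨B, ?_⟩
    rw [hX]
    rintro _ ⟨t, ht, rfl⟩
    exact hB t ht.1 ht.2.1 ht.2.2
  have hXn : X.Nonempty := by
    rw [hX]
    exact ⟨_, s0, ⟨h0H, le_rfl, h01⟩, rfl⟩
  obtain ⟨S, hS⟩ : ∃ S, S = sSup X := ⟨_, rfl⟩
  have hmax : ∀ t ∈ H, s0 ≤ t → t ≤ s1 → E t ≤ S := by
    intro t ht h1 h2
    rw [hS]
    apply le_csSup hXb
    rw [hX]
    exact ⟨t, ⟨ht, h1, h2⟩, rfl⟩
  have hS0 : 0 ≤ S := (hE s0 h0H le_rfl h01).trans (hmax s0 h0H le_rfl h01)
  have hsε : 0 < √ε := Real.sqrt_pos.2 hε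
  obtain ⟨g, hg⟩ : ∃ g : ℝ → ℝ, g = fun t => M * (K * ε) + CP * (G t * √(K * ε)
      + (√ε + G t / √ε + G t) * √S + CL * √Λ * T t) := ⟨_, rfl⟩
  have hgi : IntegrableOn g (Ioo s0 s1) := by
    rw [hg]
    have hc : ∀ c : ℝ, IntegrableOn (fun _ : ℝ => c) (Ioo s0 s1) := fun c =>
      integrableOn_const (by simp)
    refine Integrable.add (hc _) (Integrable.const_mul ?_ _)
    refine Integrable.add (Integrable.add (hGi.mul_const _) ?_) (hTi.const_mul _)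
    exact Integrable.mul_const (Integrable.add (Integrable.add (hc _) (hGi.div_const _)) hGi) _
  have hg0 : ∀ᵐ t ∂(volume.restrict (Ioo s0 s1)), 0 ≤ g t := by
    filter_upwards [hHae, ae_restrict_mem measurableSet_Ioo] with t ht ht2
    have h1 := hG t ht ht2.1.le ht2.2.le
    have h2 := hT t
    rw [hg]
    positivity
  have hkey : ∀ t ∈ H, s0 ≤ t → t ≤ s1 →
      E t + 2 * ∫ x in Ioo s0 t, D x ≤ ∫ x in Ioo s0 s1, g x := by
    intro t ht ht1 ht2
    have hsub : Ioo s0 t ⊆ Ioo s0 s1 := Ioo_subset_Ioo_right ht2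
    have hDt : IntegrableOn D (Ioo s0 t) := hDi.mono_set hsub
    have hgt : IntegrableOn g (Ioo s0 t) := hgi.mono_set hsub
    obtain ⟨hFi, hle⟩ := hen t ht ht1 ht2
    have h1 : ∫ x in Ioo s0 t, F x ≤ ∫ x in Ioo s0 t, (-2 * D x + g x) := by
      apply integral_mono_ae hFi ((hDt.const_mul (-2)).add hgt)
      have h3 : ∀ᵐ x ∂(volume.restrict (Ioo s0 t)), x ∈ H :=
        ae_mono (Measure.restrict_mono hsub le_rfl) hHae
      filter_upwards [h3, ae_restrict_mem measurableSet_Ioo] with x hx hxt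
      have hx2 : x < s1 := hxt.2.trans_le ht2
      refine (hineq x hx hxt.1 hx2).trans ?_
      change _ ≤ -2 * D x + g x
      rw [hg]
      have hG0 := hG x hx hxt.1.le hx2.le
      have h2 : √(G x) + G x ≤ √ε + G x / √ε + G x := by
        have := sqrt_le_aux hε hG0
        linarith
      have h3 : √(E x) ≤ √S := Real.sqrt_le_sqrt (hmax x hx hxt.1.le hx2.le)
      have h4 : (√(G x) + G x) * √(E x) ≤ (√ε + G x / √ε + G x) * √S :=
        mul_le_mul h2 h3 (Real.sqrt_nonneg _) (by positivity)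
      have h5 : CP * (G x * √(K * ε) + (√(G x) + G x) * √(E x) + CL * √Λ * T x)
          ≤ CP * (G x * √(K * ε) + (√ε + G x / √ε + G x) * √S + CL * √Λ * T x) :=
        mul_le_mul_of_nonneg_left (by linarith) hCP.le
      linarith
    rw [integral_add (hDt.const_mul (-2)) hgt, integral_const_mul] at h1
    have h2 : ∫ x in Ioo s0 t, g x ≤ ∫ x in Ioo s0 s1, g x :=
      setIntegral_mono_set hgi hg0 hsub.eventuallyLE
    linarith
  have hval : ∫ x in Ioo s0 s1, g x ≤ M * (K * ε) + CP * (ε * √(K * ε) + 3 * √ε * √S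
      + CL * √Λ * (CS * Λ)) := by
    have hc : ∀ c : ℝ, IntegrableOn (fun _ : ℝ => c) (Ioo s0 s1) := fun c =>
      integrableOn_const (by simp)
    have hcv : ∀ c : ℝ, ∫ _ in Ioo s0 s1, c = (s1 - s0) * c := by
      intro c
      rw [setIntegral_const]
      simp [Measure.real, h01]
    have hA := hGi.mul_const (√(K * ε))
    have hB1 : IntegrableOn (fun t => √ε + G t / √ε) (Ioo s0 s1) := (hc _).add (hGi.div_const _)
    have hB2 : IntegrableOn (fun t => √ε + G t / √ε + G t) (Ioo s0 s1) := hB1.add hGi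
    have hB3 : IntegrableOn (fun t => (√ε + G t / √ε + G t) * √S) (Ioo s0 s1) := hB2.mul_const _
    have hC : IntegrableOn (fun t => CL * √Λ * T t) (Ioo s0 s1) := hTi.const_mul _
    have hAB : IntegrableOn (fun t => G t * √(K * ε) + (√ε + G t / √ε + G t) * √S)
      (Ioo s0 s1) := hA.add hB3
    have hABC : IntegrableOn (fun t => G t * √(K * ε) + (√ε + G t / √ε + G t) * √S
      + CL * √Λ * T t) (Ioo s0 s1) := hAB.add hC
    have i1 : ∫ x in Ioo s0 s1, g x = (s1 - s0) * (M * (K * ε))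
        + CP * ∫ t in Ioo s0 s1, (G t * √(K * ε) + (√ε + G t / √ε + G t) * √S
          + CL * √Λ * T t) := by
      rw [hg, integral_add (hc _) (hABC.const_mul _), hcv,
        integral_const_mul CP (fun t => G t * √(K * ε) + (√ε + G t / √ε + G t) * √S
          + CL * √Λ * T t)]
    have i2 : ∫ t in Ioo s0 s1, (G t * √(K * ε) + (√ε + G t / √ε + G t) * √S
          + CL * √Λ * T t) = (∫ t in Ioo s0 s1, G t) * √(K * ε)
          + ((s1 - s0) * √ε + (∫ t in Ioo s0 s1, G t) / √ε + ∫ t in Ioo s0 s1, G t) * √S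
          + CL * √Λ * ∫ t in Ioo s0 s1, T t := by
      rw [integral_add hAB hC, integral_add hA hB3, integral_mul_const, integral_mul_const,
        integral_const_mul, integral_add hB1 hGi, integral_add (hc _) (hGi.div_const _),
        integral_div, hcv]
    rw [i1, i2]
    have e1 : ε / √ε = √ε := Real.div_sqrt
    have e2 : ε ≤ √ε := by
      have : √ε ≤ 1 := Real.sqrt_le_one.2 hε1
      nlinarith [Real.sq_sqrt hε.le]
    have e3 : 0 ≤ s1 - s0 := sub_nonneg.2 h01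
    obtain ⟨I, hI⟩ : ∃ I, I = ∫ t in Ioo s0 s1, G t := ⟨_, rfl⟩
    obtain ⟨J, hJ⟩ : ∃ J, J = ∫ t in Ioo s0 s1, T t := ⟨_, rfl⟩
    rw [← hI, ← hJ]
    rw [← hI] at hGε
    rw [← hJ] at hTΛ
    have e4 : I / √ε ≤ √ε := by
      exact (div_le_div_of_nonneg_right hGε hsε.le).trans e1.le
    have k1 : (s1 - s0) * (M * (K * ε)) ≤ M * (K * ε) :=
      mul_le_of_le_one_left (by positivity) hlen
    have k2 : (s1 - s0) * √ε ≤ √ε := mul_le_of_le_one_left hsε.le hlen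
    have k3 : I * √(K * ε) ≤ ε * √(K * ε) := mul_le_mul_of_nonneg_right hGε (Real.sqrt_nonneg _)
    have k4 : ((s1 - s0) * √ε + I / √ε + I) * √S ≤ 3 * √ε * √S :=
      mul_le_mul_of_nonneg_right (by linarith) (Real.sqrt_nonneg _)
    have k5 : CL * √Λ * J ≤ CL * √Λ * (CS * Λ) :=
      mul_le_mul_of_nonneg_left hTΛ (by positivity)
    have k6 : CP * (I * √(K * ε) + ((s1 - s0) * √ε + I / √ε + I) * √S + CL * √Λ * J)
        ≤ CP * (ε * √(K * ε) + 3 * √ε * √S + CL * √Λ * (CS * Λ)) :=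
      mul_le_mul_of_nonneg_left (by linarith) hCP.le
    linarith
  have hSle : S ≤ ∫ x in Ioo s0 s1, g x := by
    rw [hS]
    apply csSup_le hXn
    rw [hX]
    rintro _ ⟨t, ht, rfl⟩
    have h1 := hkey t ht.1 ht.2.1 ht.2.2
    have h2 : 0 ≤ ∫ x in Ioo s0 t, D x := by
      apply integral_nonneg_of_ae
      have h3 : ∀ᵐ x ∂(volume.restrict (Ioo s0 t)), x ∈ H :=
        ae_mono (Measure.restrict_mono (Ioo_subset_Ioo_right ht.2.2) le_rfl) hHae
      filter_upwards [h3, ae_restrict_mem measurableSet_Ioo] with x hx hxt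
      exact hD x hx hxt.1.le (hxt.2.le.trans ht.2.2)
    linarith
  have hfin := young hε hε1 hK hCP hCL hCS hM hΛ hS0 hSle hval
  intro t ht h1 h2
  exact (hkey t ht h1 h2).trans hfin

theorem t_WSTEP (hT : S_TF) (hP : S_PK) (hL : S_L4) (hS : S_TSUM) : S_WSTEP := by
  obtain ⟨M, c, hM1, hc, hTF⟩ := hT
  obtain ⟨CP, hCP, hPK⟩ := hP M hM1
  obtain ⟨CL, hCL, hL4⟩ := hL
  obtain ⟨CS, hCS, hTS⟩ := hS
  have hM0 : 0 ≤ M := by linarith
  obtain ⟨C₁, hC₁⟩ : ∃ C₁, C₁ = 2 * (M + CP + 9 / 2 * CP ^ 2 + CP * CL * CS) := ⟨_, rfl⟩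
  have hC₁pos : 0 < C₁ := by rw [hC₁]; positivity
  refine ⟨8 * C₁ / c, by positivity, ?_⟩
  intro ε hε hε1 H v q Γ hyp K₀ hK₀ hA Λ hΛ a ha s hs hs1 n hn hIH
  obtain ⟨hloc, hslice, hGi, hGε⟩ := hyp
  obtain ⟨φ, hφ⟩ := hTF a s n hn
  have hs2 : s < 0 := (hloc.subH hs).2
  have hrr : rr 2 ^ 2 = 1 / 16 := by rw [rr_two]; norm_num
  obtain ⟨s0, hs0H, hs0a, hs0b⟩ := exists_mem hloc.fullH (a := -9 / 16) (b := s - 1 / 16)
    (by linarith) (by norm_num) (by linarith)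
  have h01 : s0 ≤ s := by linarith
  have hvs : ∀ t ∈ H, ContDiff ℝ ∞ (v t) := fun t ht => slice_smooth hloc.smooth_v ht
  have hG0 : ∀ t ∈ H, 0 ≤ Γ t := by
    intro t ht
    obtain ⟨P, hsl⟩ := hslice t ht
    exact (B2_nonneg _ _ _).trans hsl.grad
  have hΓB : ∀ t ∈ H, B2 0 1 (v t) ≤ Γ t := by
    intro t ht
    obtain ⟨P, hsl⟩ := hslice t ht
    exact (B2_mono (hvs t ht) (ball_subset_ball (by norm_num))).trans hsl.grad
  have hsub : Ioo s0 s ⊆ Ioo (-1 : ℝ) 0 := Ioo_subset_Ioo (by linarith) hs2.le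
  have hHae := ae_mem hloc.fullH hsub measurableSet_Ioo
  -- the test function
  obtain ⟨Φ, hΦ⟩ : ∃ Φ : ℝ → V → ℝ, Φ = fun t z => ∑ k ∈ Finset.Icc 2 n, φ k t z := ⟨_, rfl⟩
  obtain ⟨β, hβ⟩ : ∃ β, β = s + rr n ^ 2 := ⟨_, rfl⟩
  have hsβ : s < β := by
    rw [hβ]
    have := pow_pos (rr_pos n) 2
    linarith
  have hΦsm : ContDiffOn ℝ ∞ (fun z : ℝ × V => Φ z.1 z.2) (Iio β ×ˢ univ) := by
    rw [hΦ, hβ]
    exact ContDiffOn.sum fun k _ => hφ.smooth k
  have hΦsupp : ∀ t, ∀ z ∉ ball a (1 / 4), Φ t z = 0 := by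
    intro t z hz
    rw [hΦ]
    apply Finset.sum_eq_zero
    intro k hk
    apply hφ.supp k hk t z
    intro h
    exact hz (ball_subset_ball ((rr_le (Finset.mem_Icc.1 hk).1).trans rr_two.le) h)
  have hab : ∀ z, z ∉ ball (0 : V) 1 → z ∉ ball a (1 / 4) := by
    intro z hz h
    apply hz
    rw [mem_ball] at *
    have := dist_triangle z a 0
    linarith
  have hΦ1 : ∀ t, ∀ z ∉ ball (0 : V) 1, Φ t z = 0 := fun t z hz => hΦsupp t z (hab z hz)
  have hΦpos : ∀ t ≤ s, ∀ z, 0 ≤ Φ t z := by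
    intro t ht z
    rw [hΦ]
    exact hφ.pos t ht _
  have hΦslice : ∀ t ≤ s, ContDiff ℝ ∞ (Φ t) := fun t ht =>
    slice_smooth hΦsm (ht.trans_lt hsβ)
  obtain ⟨κ, hκ⟩ : ∃ κ, κ = ∑ k ∈ Finset.Icc 2 n, M * 8 ^ k := ⟨_, rfl⟩
  have hκ0 : 0 ≤ κ := by
    rw [hκ]
    exact Finset.sum_nonneg fun k _ => by positivity
  have hΦup : ∀ t ≤ s, ∀ z, Φ t z ≤ κ := by
    intro t ht z
    rw [hΦ, hκ]
    exact Finset.sum_le_sum fun k hk => (le_abs_self _).trans (hφ.size k hk t ht z)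
  -- the energy and the dissipation
  obtain ⟨E, hEdef⟩ : ∃ E : ℝ → ℝ, E = fun t => ∫ z, nsq (v t) z * Φ t z := ⟨_, rfl⟩
  obtain ⟨D, hDdef⟩ : ∃ D : ℝ → ℝ, D = fun t => ∫ z, gsq (v t) z * Φ t z := ⟨_, rfl⟩
  have hE0 : ∀ t ∈ H, s0 ≤ t → t ≤ s → 0 ≤ E t := by
    intro t _ _ ht
    rw [hEdef]
    exact integral_nonneg fun z => mul_nonneg (nsq_nonneg _ _) (hΦpos t ht z)
  have hD0 : ∀ t ∈ H, s0 ≤ t → t ≤ s → 0 ≤ D t := by
    intro t _ _ ht
    rw [hDdef]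
    exact integral_nonneg fun z => mul_nonneg (gsq_nonneg _ _) (hΦpos t ht z)
  have hEs0 : ∫ z, nsq (v s0) z * Φ s0 z = 0 := by
    have : ∀ z, Φ s0 z = 0 := by
      intro z
      rw [hΦ]
      apply Finset.sum_eq_zero
      intro k hk
      apply hφ.suppt k hk
      have := rr_sq_le (Finset.mem_Icc.1 hk).1
      linarith
    simp [this]
  have hEb : ∃ B, ∀ t ∈ H, s0 ≤ t → t ≤ s → E t ≤ B := by
    obtain ⟨B, hB⟩ := hloc.bdd
    refine ⟨κ * B, fun t ht _ h2 => ?_⟩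
    rw [hEdef]
    refine (up_term (nsq_cont (hvs t ht)) (nsq_nonneg _) (hΦslice t h2).continuous
      (hΦ1 t) (hΦup t h2)).trans ?_
    exact mul_le_mul_of_nonneg_left (hB t ht) hκ0
  have hen : ∀ t ∈ H, s0 ≤ t → t ≤ s → IntegrableOn (DD 1 v q Φ) (Ioo s0 t) ∧
      E t ≤ ∫ x in Ioo s0 t, DD 1 v q Φ x := by
    intro t ht h1 h2
    obtain ⟨h3, h4⟩ := hloc.en (-2) β Φ
      (hΦsm.mono (prod_mono (fun x hx => hx.2) subset_rfl)) (fun τ _ z hz => hΦ1 τ z hz)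
      s0 hs0H t ht (by linarith) h1 (h2.trans_lt hsβ)
      (fun τ hτ z => hΦpos τ (hτ.2.trans h2) z)
    refine ⟨h3, ?_⟩
    rw [hEs0, sub_zero] at h4
    rw [hEdef]
    exact h4
  have hDle : ∀ t ∈ H, t ≤ s → D t ≤ κ * Γ t := by
    intro t ht h2
    rw [hDdef]
    refine (up_term (gsq_cont (hvs t ht)) (gsq_nonneg _) (hΦslice t h2).continuous
      (hΦ1 t) (hΦup t h2)).trans ?_
    exact mul_le_mul_of_nonneg_left (hΓB t ht) hκ0
  have hDi : IntegrableOn D (Ioo s0 s) := by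
    have hH' : IsOpen (H ∩ Iio β) := hloc.openH.inter isOpen_Iio
    have h1 : ContinuousOn D (H ∩ Iio β) := by
      rw [hDdef]
      exact D_cont hH' (hloc.smooth_v.mono (prod_mono inter_subset_left subset_rfl))
        (hΦsm.mono (prod_mono inter_subset_right subset_rfl)) (fun t _ z hz => hΦ1 t z hz)
    have h2 : ∀ᵐ t ∂(volume.restrict (Ioo s0 s)), t ∈ H ∩ Iio β := by
      filter_upwards [hHae, ae_restrict_mem measurableSet_Ioo] with t ht ht2
      exact ⟨ht, ht2.2.trans hsβ⟩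
    refine Integrable.mono' ((hGi.mono_set hsub).const_mul κ)
      (meas_of_cont' hH' h2 measurableSet_Ioo h1) ?_
    filter_upwards [hHae, ae_restrict_mem measurableSet_Ioo] with t ht ht2
    rw [Real.norm_eq_abs, abs_of_nonneg (hD0 t ht ht2.1.le ht2.2.le)]
    exact hDle t ht ht2.2.le
  have hGiI : IntegrableOn Γ (Ioo s0 s) := hGi.mono_set hsub
  have hGεI : ∫ t in Ioo s0 s, Γ t ≤ ε := by
    refine le_trans ?_ hGε
    apply setIntegral_mono_set hGi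
    · filter_upwards [ae_mem hloc.fullH subset_rfl measurableSet_Ioo] with x hx using hG0 x hx
    · exact hsub.eventuallyLE
  -- the sum over the scales
  have hBi : ∀ (i : ℕ), IntegrableOn (fun t => B2 a (rr (i + 2)) (v t))
      (Ioc (s - rr 2 ^ 2) s) := by
    intro i
    have hJ : Ioc (s - rr 2 ^ 2) s ⊆ Ioo (-1 : ℝ) 0 := by
      intro t ht
      rw [hrr] at ht
      exact ⟨by linarith [ht.1], ht.2.trans_lt hs2⟩
    have hae := ae_mem hloc.fullH hJ measurableSet_Ioc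
    refine Integrable.mono' (hGi.mono_set hJ)
      (meas_of_cont' hloc.openH hae measurableSet_Ioc (B2_cont hloc.openH hloc.smooth_v a _)) ?_
    filter_upwards [hae] with t ht
    rw [Real.norm_eq_abs, abs_of_nonneg (B2_nonneg _ _ _)]
    refine (B2_mono (hvs t ht) ?_).trans (hΓB t ht)
    intro z hz
    by_contra h
    refine hab z h (ball_subset_ball ?_ hz)
    exact (rr_le (by omega : 2 ≤ i + 2)).trans rr_two.le
  obtain ⟨hTi, hTΛ⟩ := hTS Λ s n (fun i t => B2 a (rr i) (v t)) hΛ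
    (fun i _ t => B2_nonneg _ _ _) (by
      intro i hi
      rw [Finset.mem_Icc] at hi
      refine ⟨?_, (hIH i hi.1 hi.2).2⟩
      obtain ⟨j, rfl⟩ : ∃ j, i = j + 2 := ⟨i - 2, by omega⟩
      apply (hBi j).mono_set
      apply Ioc_subset_Ioc_left
      have := rr_sq_le hi.1
      linarith)
  obtain ⟨T, hTdef⟩ : ∃ T : ℝ → ℝ, T = fun t => ∑ k ∈ Finset.Icc 5 n, if s - rr k ^ 2 < t then
      √(1 / 8 ^ k) * √(rr k) * (16 ^ k * (4 ^ k * (Λ / 8 ^ (k - 3)) + B2 a (rr (k - 3)) (v t))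
        + ∑ j ∈ Finset.Ico 3 (k - 2), √(32 ^ j) * √(8 ^ k) *
          (4 ^ k * (Λ / 8 ^ (j - 1)) + B2 a (rr (j - 1)) (v t))) else 0 := ⟨_, rfl⟩
  rw [← hTdef] at hTi
  have hTΛ' : ∫ t in Ioc (s - rr 2 ^ 2) s, T t ≤ CS * Λ := by rw [hTdef]; exact hTΛ
  have hT0 : ∀ t, 0 ≤ T t := by
    intro t
    rw [hTdef]
    apply Finset.sum_nonneg
    intro k _
    split_ifs
    · have h1 := B2_nonneg a (rr (k - 3)) (v t)
      have h2 : 0 ≤ ∑ j ∈ Finset.Ico 3 (k - 2), √(32 ^ j) * √(8 ^ k) *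
          (4 ^ k * (Λ / 8 ^ (j - 1)) + B2 a (rr (j - 1)) (v t)) := by
        apply Finset.sum_nonneg
        intro j _
        have h1 := B2_nonneg a (rr (j - 1)) (v t)
        positivity
      positivity
    · exact le_rfl
  have hTz : ∀ t, t ≤ s - rr 2 ^ 2 → T t = 0 := by
    intro t ht
    rw [hTdef]
    apply Finset.sum_eq_zero
    intro k hk
    rw [Finset.mem_Icc] at hk
    rw [if_neg]
    rw [not_lt]
    have := rr_sq_le (show 2 ≤ k by omega)
    linarith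
  have hs0c : s0 ≤ s - rr 2 ^ 2 := by rw [hrr]; linarith
  have hcs : s - rr 2 ^ 2 ≤ s := by rw [hrr]; linarith
  have hTi2 : IntegrableOn T (Ioc s0 s) := by
    rw [← Ioc_union_Ioc_eq_Ioc hs0c hcs]
    refine IntegrableOn.union ?_ hTi
    exact (integrableOn_zero (s := Ioc s0 (s - rr 2 ^ 2)) (μ := volume)).congr_fun
      (fun t ht => (hTz t ht.2).symm) measurableSet_Ioc
  have hTi3 : IntegrableOn T (Ioo s0 s) := hTi2.mono_set Ioo_subset_Ioc_self
  have hTΛ3 : ∫ t in Ioo s0 s, T t ≤ CS * Λ := by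
    rw [← integral_Ioc_eq_integral_Ioo]
    rw [setIntegral_eq_of_subset_of_forall_sdiff_eq_zero measurableSet_Ioc
      (Ioc_subset_Ioc_left hs0c) (fun t ht => hTz t (by
        by_contra h
        exact ht.2 ⟨not_le.1 h, ht.1.2⟩))]
    exact hTΛ'
  -- the inequality at one time
  have hineq : ∀ t ∈ H, s0 < t → t < s → DD 1 v q Φ t ≤ -2 * D t + M * (K₀ * ε)
      + CP * (Γ t * √(K₀ * ε) + (√(Γ t) + Γ t) * √(E t) + CL * √Λ * T t) := by
    intro t ht h1 h2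
    have hvt := hvs t ht
    have ht9 : -9 / 16 < t := by linarith
    have htn : t < s + rr n ^ 2 := by rw [← hβ]; exact h2.trans hsβ
    obtain ⟨P, hsl⟩ := hslice t ht
    have hH := heat_term hvt hM0 ha hΦsupp (t := t) (by
      intro z
      have h3 := hφ.heat t h2.le z
      rw [hΦ]
      exact h3)
    have hH' : M * A2 0 (3 / 4) (v t) ≤ M * (K₀ * ε) :=
      mul_le_mul_of_nonneg_left (hA t ht ht9) hM0
    have hsum : ∀ z, ∑ k ∈ (Finset.Icc 2 n).filter (fun k => s - rr k ^ 2 < t), φ k t z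
        = Φ t z := by
      intro z
      rw [hΦ]
      apply Finset.sum_filter_of_ne
      intro k hk hne
      by_contra hcon
      exact hne (hφ.suppt k hk t (not_lt.1 hcon) _)
    have hfil : ((Finset.Icc 2 n).filter (fun k => s - rr k ^ 2 < t)).filter (fun k => 5 ≤ k)
        = (Finset.Icc 5 n).filter (fun k => s - rr k ^ 2 < t) := by
      ext k
      simp only [Finset.mem_filter, Finset.mem_Icc]
      constructor
      · rintro ⟨⟨⟨h1, h2⟩, h3⟩, h4⟩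
        exact ⟨⟨h4, h2⟩, h3⟩
      · rintro ⟨⟨h1, h2⟩, h3⟩
        exact ⟨⟨⟨by omega, h2⟩, h3⟩, h1⟩
    have hsum5 : ∀ z, ∑ k ∈ (Finset.Icc 5 n).filter (fun k => s - rr k ^ 2 < t), φ k t z
        = ∑ k ∈ Finset.Icc 5 n, φ k t z := by
      intro z
      apply Finset.sum_filter_of_ne
      intro k hk hne
      rw [Finset.mem_Icc] at hk
      by_contra hcon
      exact hne (hφ.suppt k (Finset.mem_Icc.2 ⟨by omega, hk.2⟩) t (not_lt.1 hcon) _)
    have hintΦ : ∫ z, Φ t z ≤ M := by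
      rw [hΦ]
      exact hφ.int t h2.le
    have hPKt := hPK (v t) (q t) P (Γ t) hsl a ha
      ((Finset.Icc 2 n).filter (fun k => s - rr k ^ 2 < t)) (fun k z => φ k t z) (by
        intro k hk
        rw [Finset.mem_filter] at hk
        have hk1 := hk.1
        have hk2 := Finset.mem_Icc.1 hk1
        refine ⟨hk2.1, ?_, ?_, ?_, ?_⟩
        · exact slice_smooth (hφ.smooth k) htn
        · intro z hz
          exact hφ.supp k hk1 t _ hz
        · intro z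
          exact hφ.size k hk1 t h2.le _
        · intro z i
          exact hφ.grad k hk1 t h2.le _ i)
      (by intro z; rw [hsum]; exact hΦpos t h2.le z)
      (by
        intro z
        rw [hfil, hsum, hsum5, hΦ]
        exact hφ.out t h2.le _)
      (by
        simp only [hsum]
        exact hintΦ)
    simp only [hsum] at hPKt
    rw [hfil] at hPKt
    have hGt := hG0 t ht
    have hPS : ∑ k ∈ (Finset.Icc 5 n).filter (fun k => s - rr k ^ 2 < t),
        √(A2 a (rr k) (v t)) * PS a (v t) k ≤ CL * √Λ * T t := by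
      rw [hTdef]
      simp only
      rw [← Finset.sum_filter, Finset.mul_sum]
      apply Finset.sum_le_sum
      intro k hk
      rw [Finset.mem_filter, Finset.mem_Icc] at hk
      have hAk : ∀ i, 2 ≤ i → i ≤ k → A2 a (rr i) (v t) ≤ Λ / 8 ^ i := by
        intro i hi hik
        refine (hIH i hi (hik.trans hk.1.2)).1 t ht ?_ h2.le
        have := rr_sq_le hik
        linarith [hk.2]
      exact pk_term hCL hL4 hΛ hvt hk.1.1 hAk
    have hsq : √(A2 0 (3 / 4) (v t)) ≤ √(K₀ * ε) := Real.sqrt_le_sqrt (hA t ht ht9)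
    have hEt : ∫ z, nsq (v t) z * Φ t z = E t := by rw [hEdef]
    have hF2 : CP * (Γ t * √(A2 0 (3 / 4) (v t)) + (√(Γ t) + Γ t) *
          √(∫ z, nsq (v t) z * Φ t z)
          + ∑ k ∈ (Finset.Icc 5 n).filter (fun k => s - rr k ^ 2 < t),
            √(A2 a (rr k) (v t)) * PS a (v t) k)
        ≤ CP * (Γ t * √(K₀ * ε) + (√(Γ t) + Γ t) * √(E t) + CL * √Λ * T t) := by
      apply mul_le_mul_of_nonneg_left _ hCP.le
      have h1 := mul_le_mul_of_nonneg_left hsq hGt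
      rw [hEt]
      linarith
    have hF3 := (le_abs_self _).trans (hPKt.trans hF2)
    have hF4 : (fun y' => Φ t y') = Φ t := rfl
    rw [hF4] at hF3
    have hDt : ∫ z, gsq (v t) z * Φ t z = D t := by rw [hDdef]
    have hH2 : ∫ z, nsq (v t) z * (deriv (fun s => Φ s z) t + 1 * lap (Φ t) z)
        ≤ M * A2 0 (3 / 4) (v t) := by
      simp only [one_mul]
      exact hH
    unfold DD
    rw [hDt]
    linarith
  have hmain := wabsorb (E := E) (D := D) (G := Γ) (T := T) (F := DD 1 v q Φ) (H := H)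
    (s0 := s0) (s1 := s) (ε := ε) (K := K₀) (CP := CP) (CL := CL) (CS := CS) (M := M) (Λ := Λ)
    h01 (by linarith) hε hε1 hK₀ hCP hCL hCS hM0 hΛ hs0H hHae hEb hen hDi hD0 hE0 hGiI
    (fun t ht _ _ => hG0 t ht) hGεI hTi3 hT0 hTΛ3 hineq
  rw [← hC₁] at hmain
  obtain ⟨X, hX⟩ : ∃ X, X = (1 + K₀) * ε + Λ * √Λ := ⟨_, rfl⟩
  rw [← hX] at hmain
  rw [← hX]
  have hc8 : 0 < c * 8 ^ n := by positivity
  have hsn : s0 ≤ s - rr (n + 1) ^ 2 := by
    have := rr_sq_le (show 2 ≤ n + 1 by omega)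
    linarith
  have hval : 8 * C₁ / c * X / 8 ^ (n + 1) = C₁ * X / (c * 8 ^ n) := by
    rw [pow_succ]
    field_simp
  have hlow : ∀ t, s - rr (n + 1) ^ 2 < t → t ≤ s → ∀ z ∈ ball a (rr (n + 1)),
      c * 8 ^ n ≤ Φ t z := by
    intro t h1 h2 z hz
    rw [hΦ]
    exact hφ.low t h1 h2 z hz
  refine ⟨?_, ?_⟩
  · intro t ht ht1 ht2
    rw [hval, le_div_iff₀ hc8]
    have h1 := hmain t ht (hsn.trans ht1.le) ht2
    have h2 : 0 ≤ ∫ x in Ioo s0 t, D x := by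
      apply integral_nonneg_of_ae
      have h3 : ∀ᵐ x ∂(volume.restrict (Ioo s0 t)), x ∈ H :=
        ae_mono (Measure.restrict_mono (Ioo_subset_Ioo_right ht2) le_rfl) hHae
      filter_upwards [h3, ae_restrict_mem measurableSet_Ioo] with x hx hxt
      exact hD0 x hx hxt.1.le (hxt.2.le.trans ht2)
    have h3 := low_term (nsq_cont (hvs t ht)) (nsq_nonneg (v t))
      (hΦslice t ht2).continuous (hΦpos t ht2) (hΦ1 t) (a := a)
      (ρ := rr (n + 1)) (κ := c * 8 ^ n) (hlow t ht1 ht2)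
    have h4 : A2 a (rr (n + 1)) (v t) * (c * 8 ^ n) ≤ E t := by
      rw [hEdef, mul_comm]
      exact h3
    linarith
  · rw [hval, le_div_iff₀ hc8]
    have h1 := hmain s hs h01 le_rfl
    have h2 := hE0 s hs h01 le_rfl
    have hJ : Ioo (s - rr (n + 1) ^ 2) s ⊆ Ioo s0 s := Ioo_subset_Ioo_left hsn
    have hae : ∀ᵐ x ∂(volume.restrict (Ioo (s - rr (n + 1) ^ 2) s)), x ∈ H :=
      ae_mono (Measure.restrict_mono hJ le_rfl) hHae
    have hBint : IntegrableOn (fun t => B2 a (rr (n - 1 + 2)) (v t))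
        (Ioo (s - rr (n + 1) ^ 2) s) := by
      apply (hBi (n - 1)).mono_set
      intro t ht
      have := rr_sq_le (show 2 ≤ n + 1 by omega)
      exact ⟨by linarith [ht.1], ht.2.le⟩
    rw [show n - 1 + 2 = n + 1 by omega] at hBint
    have h3 : ∫ t in Ioo (s - rr (n + 1) ^ 2) s, B2 a (rr (n + 1)) (v t) * (c * 8 ^ n)
        ≤ ∫ t in Ioo (s - rr (n + 1) ^ 2) s, D t := by
      apply integral_mono_ae (hBint.mul_const _) (hDi.mono_set hJ)
      filter_upwards [hae, ae_restrict_mem measurableSet_Ioo] with t ht ht2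
      have h3 := low_term (gsq_cont (hvs t ht)) (gsq_nonneg (v t))
        (hΦslice t ht2.2.le).continuous (hΦpos t ht2.2.le) (hΦ1 t) (a := a)
        (ρ := rr (n + 1)) (κ := c * 8 ^ n) (hlow t ht2.1 ht2.2.le)
      rw [hDdef, mul_comm]
      exact h3
    have h4 : ∫ t in Ioo (s - rr (n + 1) ^ 2) s, D t ≤ ∫ t in Ioo s0 s, D t := by
      apply setIntegral_mono_set hDi
      · filter_upwards [hHae, ae_restrict_mem measurableSet_Ioo] with t ht ht2
        exact hD0 t ht ht2.1.le ht2.2.le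
      · exact hJ.eventuallyLE
    have h5 : 0 ≤ ∫ t in Ioo s0 s, D t := by
      apply integral_nonneg_of_ae
      filter_upwards [hHae, ae_restrict_mem measurableSet_Ioo] with t ht ht2
      exact hD0 t ht ht2.1.le ht2.2.le
    rw [integral_mul_const] at h3
    rw [integral_Ioc_eq_integral_Ioo]
    linarith

end Pool.Agent.Y458.NS
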