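import Pool.Agent.Y8.Stm
import Pool.Agent.W605.MD.BASE
import Pool.Agent.W612.MD.Slc
import Pool.Agent.W612.MD.Absorb
import Pool.Agent.W333.MD.PCONT
import Pool.Agent.W335.MD.CT

/-!
Auxiliary facts on fields which are smooth only at the times of an open set of full measure.
-/

open MeasureTheory Set Metric
open scoped ContDiff

namespace Pool.Agent.Y458.NS

open H459R3.NS W221.NS Pool.Agent.Y8

/-- almost all times are regular -/
lemma ae_mem {H : Set ℝ} (hfull : volume (Ioo (-1 : ℝ) 0 \ H) = 0) {J : Set ℝ}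
    (hJ : J ⊆ Ioo (-1) 0) (hJm : MeasurableSet J) : ∀ᵐ t ∂(volume.restrict J), t ∈ H := by
  rw [ae_restrict_iff' hJm]
  have h1 : ∀ᵐ t : ℝ, t ∉ Ioo (-1 : ℝ) 0 \ H := measure_eq_zero_iff_ae_notMem.1 hfull
  filter_upwards [h1] with t ht htJ
  by_contra hc
  exact ht ⟨hJ htJ, hc⟩

/-- regular times are dense -/
lemma exists_mem {H : Set ℝ} (hfull : volume (Ioo (-1 : ℝ) 0 \ H) = 0) {a b : ℝ} (hab : a < b)
    (ha : -1 ≤ a) (hb : b ≤ 0) : ∃ t ∈ H, a < t ∧ t < b := by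
  by_contra hc
  push Not at hc
  have h1 : Ioo a b ⊆ Ioo (-1 : ℝ) 0 \ H := by
    intro t ht
    refine ⟨⟨by linarith [ht.1], by linarith [ht.2]⟩, fun h => ?_⟩
    exact absurd (hc t h ht.1) (not_le.2 ht.2)
  have h2 : volume (Ioo a b) ≤ 0 := hfull ▸ measure_mono h1
  rw [Real.volume_Ioo] at h2
  have h3 := ENNReal.ofReal_pos.2 (sub_pos.2 hab)
  exact absurd h2 (not_le.2 h3)

/-- a function continuous at regular times is measurable -/
lemma meas_of_cont {H : Set ℝ} (hH : IsOpen H) (hfull : volume (Ioo (-1 : ℝ) 0 \ H) = 0)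
    {f : ℝ → ℝ} (hf : ContinuousOn f H) {J : Set ℝ} (hJ : J ⊆ Ioo (-1) 0) :
    AEStronglyMeasurable f (volume.restrict J) := by
  have h1 : AEStronglyMeasurable f (volume.restrict H) :=
    hf.aestronglyMeasurable hH.measurableSet
  have h2 : (J : Set ℝ) ≤ᵐ[volume] H := by
    have h1 : ∀ᵐ t : ℝ, t ∉ Ioo (-1 : ℝ) 0 \ H := measure_eq_zero_iff_ae_notMem.1 hfull
    filter_upwards [h1] with t ht htJ
    by_contra hc
    exact ht ⟨hJ htJ, hc⟩
  exact h1.mono_measure (Measure.restrict_mono_ae h2)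

/-- local continuity gives continuity on an open set of times -/
lemma cont_of_local {H : Set ℝ} (hH : IsOpen H) {f : ℝ → ℝ}
    (h : ∀ α β : ℝ, Ioo α β ⊆ H → ContinuousOn f (Ioo α β)) : ContinuousOn f H := by
  intro t ht
  obtain ⟨ε, hε, hsub⟩ := Metric.isOpen_iff.1 hH t ht
  rw [Real.ball_eq_Ioo] at hsub
  have h1 := h _ _ hsub
  have h2 : t ∈ Ioo (t - ε) (t + ε) := ⟨by linarith, by linarith⟩
  exact (h1.continuousAt (isOpen_Ioo.mem_nhds h2)).continuousWithinAt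

lemma ct : S_CT := W335.MD.t_CT Pool.Agent.W333.MD.t_PCONT

lemma B2_cont {H : Set ℝ} (hH : IsOpen H) {v : ℝ → V → V}
    (hv : ContDiffOn ℝ ∞ (fun z : ℝ × V => v z.1 z.2) (H ×ˢ univ)) (a : V) (ρ : ℝ) :
    ContinuousOn (fun t => B2 a ρ (v t)) H :=
  cont_of_local hH fun α β hsub =>
    ((ct α β v (hv.mono (prod_mono hsub subset_rfl))).1 a ρ).2

lemma D_cont {H : Set ℝ} (hH : IsOpen H) {v : ℝ → V → V}
    (hv : ContDiffOn ℝ ∞ (fun z : ℝ × V => v z.1 z.2) (H ×ˢ univ)) {Φ : ℝ → V → ℝ}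
    (hΦ : ContDiffOn ℝ ∞ (fun z : ℝ × V => Φ z.1 z.2) (H ×ˢ univ))
    (h0 : ∀ t ∈ H, ∀ z ∉ ball (0 : V) 1, Φ t z = 0) :
    ContinuousOn (fun t => ∫ z, gsq (v t) z * Φ t z) H :=
  cont_of_local hH fun α β hsub =>
    ((ct α β v (hv.mono (prod_mono hsub subset_rfl))).2 Φ
      (hΦ.mono (prod_mono hsub subset_rfl)) fun t ht => h0 t (hsub ht)).2

lemma gsq_int {v : V → V} (hv : ContDiff ℝ ∞ v) (a : V) (ρ : ℝ) :
    IntegrableOn (gsq v) (ball a ρ) :=
  ((W612.MD.gsq_cont hv).continuousOn.integrableOn_compact (isCompact_closedBall a ρ)).mono_set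
    ball_subset_closedBall

lemma nsq_int {v : V → V} (hv : ContDiff ℝ ∞ v) (a : V) (ρ : ℝ) :
    IntegrableOn (nsq v) (ball a ρ) :=
  ((W612.MD.nsq_cont hv).continuousOn.integrableOn_compact (isCompact_closedBall a ρ)).mono_set
    ball_subset_closedBall

lemma B2_mono {v : V → V} (hv : ContDiff ℝ ∞ v) {a b : V} {ρ σ : ℝ}
    (h : ball a ρ ⊆ ball b σ) : B2 a ρ v ≤ B2 b σ v :=
  setIntegral_mono_set (gsq_int hv b σ)
    (Filter.Eventually.of_forall fun z => W612.MD.gsq_nonneg v z) h.eventuallyLE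

lemma A2_mono {v : V → V} (hv : ContDiff ℝ ∞ v) {a b : V} {ρ σ : ℝ}
    (h : ball a ρ ⊆ ball b σ) : A2 a ρ v ≤ A2 b σ v :=
  setIntegral_mono_set (nsq_int hv b σ)
    (Filter.Eventually.of_forall fun z => W612.MD.nsq_nonneg v z) h.eventuallyLE

/-- upper bound of a weighted integral -/
lemma up_term {f ψ : V → ℝ} (hf : Continuous f) (hf0 : ∀ z, 0 ≤ f z) (hψ : Continuous ψ)
    {κ : ℝ} (hz : ∀ z ∉ ball (0 : V) 1, ψ z = 0) (hup : ∀ z, ψ z ≤ κ) :
    ∫ z, f z * ψ z ≤ κ * ∫ z in ball (0 : V) 1, f z := by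
  have h0 : ∀ z ∉ ball (0 : V) 1, f z * ψ z = 0 := by
    intro z h
    rw [hz z h, mul_zero]
  rw [← setIntegral_eq_integral_of_forall_compl_eq_zero h0, ← integral_const_mul]
  apply setIntegral_mono_on
  · exact ((hf.mul hψ).continuousOn.integrableOn_compact (isCompact_closedBall 0 1)).mono_set
      ball_subset_closedBall
  · apply Integrable.const_mul
    exact (hf.continuousOn.integrableOn_compact (isCompact_closedBall 0 1)).mono_set
      ball_subset_closedBall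
  · exact measurableSet_ball
  · intro z _
    rw [mul_comm]
    exact mul_le_mul_of_nonneg_right (hup z) (hf0 z)

end Pool.Agent.Y458.NS
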